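import Pool.Agent.H620.Inf2.Param

/-! The maps `x ↦ x / 2`, `(3 x + σ D) / 2` on a residue class modulo `D`: `x = D q + 2 ^ n ρ`. -/

set_option autoImplicit false

namespace Pool.Agent.H620.Rel

open Finset
open Pool.Agent.TH930.EBQ (ones wd words cw T ones_cons_true ones_cons_false)
open Pool.Agent.H499R2.CO (Tz q step surv surv_periodic sum_affine count_surv odd3 nx pair_step)
open Pool.Agent.H620.Inf2 (Sg aw cv cwL pt coalW iter_add wd_add T_eq_Tz)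

variable {σ D : ℤ}

theorem it_shift (hσ : Sg σ) (hD : D % 2 = 1) (n : ℕ) : ∀ x ρ : ℤ,
    (T (σ * D))^[n] (D * x + 2 ^ n * ρ) = D * (T σ)^[n] x + 3 ^ ones (wd σ n x) * ρ := by
  induction n with
  | zero => intro x ρ; simp [wd]
  | succ n ih =>
    intro x ρ
    obtain ⟨D', hD'⟩ : ∃ D', D = 2 * D' + 1 := ⟨D / 2, by omega⟩
    rw [Function.iterate_succ_apply, Function.iterate_succ_apply]
    rcases Int.emod_two_eq_zero_or_one x with h | h
    · have hd' : decide (x % 2 = 1) = false := by simp [h]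
      obtain ⟨y, hy⟩ : ∃ y, x = 2 * y := ⟨x / 2, by omega⟩
      have h1 : T σ x = y := by unfold T; rw [if_pos h]; omega
      have h2 : T (σ * D) (D * x + 2 ^ (n + 1) * ρ) = D * y + 2 ^ n * ρ := by
        have e : D * x + 2 ^ (n + 1) * ρ = 2 * (D * y + 2 ^ n * ρ) := by rw [hy, pow_succ]; ring
        unfold T
        rw [e, if_pos (by omega)]
        omega
      simp only [wd]
      rw [hd', ones_cons_false, h2, h1, ih]
    · have hd' : decide (x % 2 = 1) = true := by simp [h]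
      obtain ⟨y, hy⟩ : ∃ y, x = 2 * y + 1 := ⟨x / 2, by omega⟩
      obtain ⟨z, hz⟩ : ∃ z, 3 * x + σ = 2 * z := by
        have := hσ.mod
        exact ⟨(3 * x + σ) / 2, by omega⟩
      have h1 : T σ x = z := by unfold T; rw [if_neg (by omega), hz]; omega
      have h2 : T (σ * D) (D * x + 2 ^ (n + 1) * ρ) = D * z + 2 ^ n * (3 * ρ) := by
        have e0 : (D * x + 2 ^ (n + 1) * ρ) % 2 = 1 := by
          have e : D * x + 2 ^ (n + 1) * ρ = 2 * (D' * x + y + 2 ^ n * ρ) + 1 := by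
            rw [hy, hD', pow_succ]; ring
          omega
        have e : 3 * (D * x + 2 ^ (n + 1) * ρ) + σ * D = 2 * (D * z + 2 ^ n * (3 * ρ)) := by
          have : D * (3 * x + σ) = D * (2 * z) := by rw [hz]
          rw [pow_succ]
          linear_combination this
        unfold T
        rw [if_neg (by omega), e]
        omega
      simp only [wd]
      rw [hd', ones_cons_true, h2, h1, ih, pow_succ]
      ring

theorem it_inv {S : Set ℤ} {d : ℤ} (hS : ∀ x, x ∈ S ↔ T d x ∈ S) (n : ℕ) : ∀ x, x ∈ S ↔ (T d)^[n] x ∈ S := by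
  induction n with
  | zero => intro x; rfl
  | succ n ih => intro x; rw [Function.iterate_succ_apply, ← ih, ← hS]

/-- the values after `J` steps -/
theorem PV (hσ : Sg σ) (hD : D % 2 = 1) {S : Set ℤ} (hS : ∀ x, x ∈ S ↔ T (σ * D) x ∈ S) (J : ℕ) (ρ : ℤ) (V L : ℕ) :
    D * ((2 ^ J * V + L : ℕ) : ℤ) + 2 ^ J * ρ ∈ S ↔ D * (3 ^ aw σ J L * (V : ℤ) + cv σ J L) + 3 ^ aw σ J L * ρ ∈ S := by
  rw [it_inv hS J, it_shift hσ hD]
  have e : ((2 ^ J * V + L : ℕ) : ℤ) = 2 ^ J * (V : ℤ) + L := by push_cast; ring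
  rw [e, wd_add hσ, iter_add hσ]
  rfl

theorem coal_one (hσ : Sg σ) (hD : D % 2 = 1) {S : Set ℤ} (hS : ∀ x, x ∈ S ↔ T (σ * D) x ∈ S) {b i : ℕ} {r : ℤ}
    (hq : q step (0, 0) b (i, r) ≤ 1 / 2)
    {J L L' : ℕ} (ha : aw σ J L' = aw σ J L + i) (hc : (cv σ J L' : ℤ) = 3 ^ i * cv σ J L + σ * r) (ρ : ℤ) :
    ∃ G ⊆ range (2 ^ b), (2 : ℝ) ^ b ≤ 2 * G.card ∧ ∀ M ∈ G, ∀ U : ℕ,
      (D * ((2 ^ J * (2 ^ b * U + M) + L : ℕ) : ℤ) + 2 ^ (J + b) * ρ ∈ S ↔
        D * ((2 ^ J * (2 ^ b * U + M) + L' : ℕ) : ℤ) + 2 ^ (J + b) * ρ ∈ S) := by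
  classical
  refine ⟨(range (2 ^ b)).filter (fun M : ℕ => ¬ surv σ b (i, r) (3 ^ aw σ J L * (M : ℤ) + cv σ J L)),
    filter_subset _ _, ?_, ?_⟩
  · have h1 := sum_affine b (fun x : ℤ => if surv σ b (i, r) x then (1 : ℝ) else 0)
      (fun x m => by simp only [surv_periodic hσ.mod]) (a := 3 ^ aw σ J L) (odd3 _) (cv σ J L)
    rw [count_surv hσ.mod] at h1
    have h2 : ((((range (2 ^ b)).filter (fun M : ℕ => surv σ b (i, r) (3 ^ aw σ J L * (M : ℤ) + cv σ J L))).card : ℕ) : ℝ) =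
        2 ^ b * q step (0, 0) b (i, r) := by
      rw [← h1, card_filter]
      push_cast
      rfl
    have h3 := card_filter_add_card_filter_not (s := range (2 ^ b))
      (fun M : ℕ => surv σ b (i, r) (3 ^ aw σ J L * (M : ℤ) + cv σ J L))
    rw [card_range] at h3
    have h4 : ((((range (2 ^ b)).filter (fun M : ℕ => surv σ b (i, r) (3 ^ aw σ J L * (M : ℤ) + cv σ J L))).card : ℕ) : ℝ) +
      (((range (2 ^ b)).filter (fun M : ℕ => ¬ surv σ b (i, r) (3 ^ aw σ J L * (M : ℤ) + cv σ J L))).card : ℕ) = 2 ^ b := by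
      exact_mod_cast h3
    have hp : (0 : ℝ) < 2 ^ b := by positivity
    nlinarith
  · intro M hM U
    rw [mem_filter] at hM
    have hM2 := hM.2
    set V : ℕ := 2 ^ b * U + M with hV
    set x : ℤ := 3 ^ aw σ J L * (V : ℤ) + cv σ J L with hx
    have h1 : ¬ surv σ b (i, r) x := by
      have e : x = (3 ^ aw σ J L * (M : ℤ) + cv σ J L) + (3 ^ aw σ J L * U) * 2 ^ b := by
        rw [hx, hV]; push_cast; ring
      rw [e, surv_periodic hσ.mod]
      exact hM2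
    obtain ⟨t, ht, h2, h3⟩ := coalW hσ.mod b i r x h1
    obtain ⟨v, hv⟩ : ∃ v, b = t + v := ⟨b - t, by omega⟩
    have e0 : (2 : ℤ) ^ (J + b) * ρ = 2 ^ J * (2 ^ b * ρ) := by rw [pow_add]; ring
    rw [e0, PV hσ hD hS, PV hσ hD hS, ← hx, ha, hc]
    have e3 : (3 : ℤ) ^ (aw σ J L + i) * (V : ℤ) + (3 ^ i * cv σ J L + σ * r) = 3 ^ i * x + σ * r := by
      rw [hx, pow_add]; ring
    rw [e3]
    have e4 : (3 : ℤ) ^ aw σ J L * (2 ^ b * ρ) = 2 ^ t * (3 ^ aw σ J L * (2 ^ v * ρ)) := by rw [hv, pow_add]; ring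
    have e5 : (3 : ℤ) ^ (aw σ J L + i) * (2 ^ b * ρ) = 2 ^ t * (3 ^ (aw σ J L + i) * (2 ^ v * ρ)) := by
      rw [hv, pow_add 2]; ring
    rw [e4, e5, it_inv hS t (D * x + _), it_inv hS t (D * (3 ^ i * x + σ * r) + _), it_shift hσ hD, it_shift hσ hD,
      h2, h3, pow_add 3 (aw σ J L) i, pow_add 3 _ i]
    have e6 : (3 : ℤ) ^ ones (wd σ t (3 ^ i * x + σ * r)) * 3 ^ i * (3 ^ aw σ J L * (2 ^ v * ρ)) =
        3 ^ ones (wd σ t (3 ^ i * x + σ * r)) * (3 ^ aw σ J L * 3 ^ i * (2 ^ v * ρ)) := by ring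
    rw [e6]

theorem coal_part (hσ : Sg σ) (hD : D % 2 = 1) {S : Set ℤ} (hS : ∀ x, x ∈ S ↔ T (σ * D) x ∈ S) {μ b : ℕ}
    (hq : ∀ i ≤ 1, ∀ r : ℤ, |r| ≤ 3 ^ (μ + 1) → q step (0, 0) b (i, r) ≤ 1 / 2) (ρ : ℤ) {par J L L' : ℕ}
    (h : pt σ μ par J L = pt σ μ par J L') :
    ∃ G ⊆ range (2 ^ b), (2 : ℝ) ^ b ≤ 2 * G.card ∧ ∀ M ∈ G, ∀ U : ℕ,
      (D * ((2 ^ J * (2 ^ b * U + M) + L : ℕ) : ℤ) + 2 ^ (J + b) * ρ ∈ S ↔
        D * ((2 ^ J * (2 ^ b * U + M) + L' : ℕ) : ℤ) + 2 ^ (J + b) * ρ ∈ S) := by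
  have habs : ∀ r : ℤ, |σ * r| = |r| := by
    intro r
    rw [abs_mul]
    rcases hσ with rfl | rfl <;> simp
  have hdd : ∀ r : ℤ, σ * (σ * r) = r := by
    intro r; rw [← mul_assoc, hσ.sq, one_mul]
  have key : ∀ {L L' : ℕ}, pt σ μ par J L = pt σ μ par J L' → aw σ J L ≤ aw σ J L' →
      ∃ G ⊆ range (2 ^ b), (2 : ℝ) ^ b ≤ 2 * G.card ∧ ∀ M ∈ G, ∀ U : ℕ,
      (D * ((2 ^ J * (2 ^ b * U + M) + L : ℕ) : ℤ) + 2 ^ (J + b) * ρ ∈ S ↔
        D * ((2 ^ J * (2 ^ b * U + M) + L' : ℕ) : ℤ) + 2 ^ (J + b) * ρ ∈ S) := by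
    intro L L' h hle
    unfold pt at h
    rw [Prod.mk.injEq] at h
    obtain ⟨h1, h2⟩ := h
    rcases (show aw σ J L' = aw σ J L ∨ aw σ J L' = aw σ J L + 1 by omega) with ha | ha
    · refine coal_one hσ hD hS (i := 0) (r := σ * ((cv σ J L' : ℤ) - cv σ J L)) (hq 0 (by norm_num) _ ?_) ha
        (by rw [hdd]; ring) ρ
      rw [habs]
      rw [ha] at h2
      set e := (aw σ J L + par) % 2 with he
      have he2 : e ≤ 1 := by omega
      have hp : 0 < 3 ^ (μ + e) := by positivity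
      have a1 := Nat.div_mul_le_self (cv σ J L) (3 ^ (μ + e))
      have a2 := Nat.lt_div_mul_add (a := cv σ J L) hp
      have a3 := Nat.div_mul_le_self (cv σ J L') (3 ^ (μ + e))
      have a4 := Nat.lt_div_mul_add (a := cv σ J L') hp
      have a5 : 3 ^ (μ + e) ≤ 3 ^ (μ + 1) := Nat.pow_le_pow_right (by norm_num) (by omega)
      rw [h2] at a1 a2
      have a5' : ((3 ^ (μ + e) : ℕ) : ℤ) ≤ 3 ^ (μ + 1) := by exact_mod_cast a5
      set X := cv σ J L' / 3 ^ (μ + e) * 3 ^ (μ + e) with hX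
      rw [abs_le]
      constructor <;> omega
    · have hpar : (aw σ J L + par) % 2 = 0 := by omega
      have hpar' : (aw σ J L' + par) % 2 = 1 := by omega
      rw [hpar, hpar', add_zero] at h2
      refine coal_one hσ hD hS (i := 1) (r := σ * ((cv σ J L' : ℤ) - 3 * cv σ J L)) (hq 1 le_rfl _ ?_) ha
        (by rw [hdd]; ring) ρ
      rw [habs]
      have hp : 0 < 3 ^ μ := by positivity
      have hp' : 0 < 3 ^ (μ + 1) := by positivity
      have a1 := Nat.div_mul_le_self (cv σ J L) (3 ^ μ)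
      have a2 := Nat.lt_div_mul_add (a := cv σ J L) hp
      have a3 := Nat.div_mul_le_self (cv σ J L') (3 ^ (μ + 1))
      have a4 := Nat.lt_div_mul_add (a := cv σ J L') hp'
      rw [h2] at a1 a2
      have e1 : (3 : ℤ) ^ (μ + 1) = 3 * ((3 ^ μ : ℕ) : ℤ) := by push_cast; ring
      have e2 : (3 : ℕ) ^ (μ + 1) = 3 * 3 ^ μ := by ring
      rw [e1]
      rw [e2] at a1 a2 a3 a4
      set Y := cv σ J L' / (3 * 3 ^ μ) with hY
      have e3 : Y * (3 * 3 ^ μ) = 3 * (Y * 3 ^ μ) := by ring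
      rw [e3] at a3 a4
      set X := Y * 3 ^ μ with hX
      rw [abs_le]
      constructor <;> omega
  rcases le_total (aw σ J L) (aw σ J L') with hle | hle
  · exact key h hle
  · obtain ⟨G, h1, h2, h3⟩ := key h.symm hle
    exact ⟨G, h1, h2, fun M hM U => (h3 M hM U).symm⟩

end Pool.Agent.H620.Rel
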