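import Pool.Agent.H620.Rel.Final
import Pool.Agent.H620.Inf2.Depth

/-! Invariant sets of the `3x+d` map in residue classes modulo `d`. -/

set_option autoImplicit false

namespace Pool.Agent.H620.Rel

open Finset Filter Topology
open Pool.Agent.TH930.EBQ (T)
open Pool.Agent.H620.Inf (TI)
open Pool.Agent.H620.Inf2 (Sg Large)
open Pool.Agent.Results.MP_7f88e4_nt (ResidueClasses.Rel ResidueClasses.HasDensity ResidueClasses.main)

/-- the counting function -/
noncomputable def cq (s : ℤ) (D r : ℕ) (S : Set ℤ) (N : ℕ) : ℕ :=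
  {n : ℕ | 1 ≤ n ∧ n ≤ N ∧ s * (D * (n : ℤ) + r) ∈ S}.ncard

theorem cq_dens {s : ℤ} (hs : s = 1 ∨ s = -1) {D r : ℕ} (hr : r < D) {S : Set ℤ} {δ : ℝ}
    (h : ResidueClasses.HasDensity s S D (s * r) δ) :
    Tendsto (fun N : ℕ => (cq s D r S N : ℝ) / N) atTop (𝓝 (D * δ)) := by
  have hD0 : 0 < D := by omega
  have hDr : (0 : ℝ) < D := by exact_mod_cast hD0
  have hss : s * s = 1 := by rcases hs with rfl | rfl <;> norm_num
  have hDz : (0 : ℤ) < D := by exact_mod_cast hD0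
  set A : ℕ → ℕ := fun N => {n : ℤ | 0 < s * n ∧ s * n ≤ N ∧ n ∈ S ∧ n ≡ s * r [ZMOD D]}.ncard with hA
  have hfin : ∀ N : ℕ, {n : ℤ | 0 < s * n ∧ s * n ≤ N ∧ n ∈ S ∧ n ≡ s * r [ZMOD D]}.Finite := by
    intro N
    refine (Set.finite_Icc (-(N : ℤ)) N).subset ?_
    rintro n ⟨h1, h2, _, _⟩
    rw [Set.mem_Icc]
    rcases hs with rfl | rfl <;> constructor <;> linarith
  have hfinB : ∀ N : ℕ, {n : ℕ | 1 ≤ n ∧ n ≤ N ∧ s * (D * (n : ℤ) + r) ∈ S}.Finite := by
    intro N
    exact (Set.finite_Icc 1 N).subset fun n hn => ⟨hn.1, hn.2.1⟩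
  set φ : ℕ → ℤ := fun q => s * (D * (q : ℤ) + r) with hφ
  have hφinj : Function.Injective φ := by
    intro a b hab
    have h3 : s * (s * (D * (a : ℤ) + r)) = s * (s * (D * (b : ℤ) + r)) := by
      simp only [hφ] at hab; rw [hab]
    rw [← mul_assoc, ← mul_assoc, hss, one_mul, one_mul] at h3
    have h4 : (D : ℤ) * a = D * b := by linarith
    exact_mod_cast mul_left_cancel₀ hDz.ne' h4
  have hsφ : ∀ q : ℕ, s * φ q = D * (q : ℤ) + r := by
    intro q
    simp only [hφ]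
    rw [← mul_assoc, hss, one_mul]
  have h1 : ∀ N : ℕ, cq s D r S N ≤ A (D * N + r) := by
    intro N
    unfold cq
    simp only [hA]
    rw [← Set.ncard_image_of_injective _ hφinj]
    apply Set.ncard_le_ncard _ (hfin _)
    rintro _ ⟨q, ⟨g1, g2, g3⟩, rfl⟩
    refine ⟨?_, ?_, g3, ?_⟩
    · rw [hsφ]
      have : (1 : ℤ) ≤ q := by exact_mod_cast g1
      nlinarith
    · rw [hsφ]
      push_cast
      have : (q : ℤ) ≤ N := by exact_mod_cast g2
      nlinarith
    · simp only [hφ]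
      apply Int.ModEq.mul_left
      unfold Int.ModEq
      rw [Int.mul_add_emod_self_left]
  have h2 : ∀ N : ℕ, A (D * N + r) ≤ cq s D r S N + 1 := by
    intro N
    have hsub : {n : ℤ | 0 < s * n ∧ s * n ≤ ((D * N + r : ℕ) : ℤ) ∧ n ∈ S ∧ n ≡ s * r [ZMOD D]} ⊆
        φ '' ({n : ℕ | 1 ≤ n ∧ n ≤ N ∧ s * (D * (n : ℤ) + r) ∈ S} ∪ {0}) := by
      rintro n ⟨g1, g2, g3, g4⟩
      have g5 : s * n ≡ r [ZMOD D] := by
        have := g4.mul_left s
        rwa [← mul_assoc, hss, one_mul] at this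
      have hr0 : (s * n) % D = r := by
        rw [g5, Int.emod_eq_of_lt (by positivity) (by exact_mod_cast hr)]
      have g6 := Int.mul_ediv_add_emod (s * n) D
      rw [hr0] at g6
      have g7 : 0 ≤ s * n / D := Int.ediv_nonneg g1.le hDz.le
      obtain ⟨q, hq⟩ := Int.eq_ofNat_of_zero_le g7
      rw [hq] at g6
      have hn : φ q = n := by
        simp only [hφ]
        rw [g6, ← mul_assoc, hss, one_mul]
      refine ⟨q, ?_, hn⟩
      rcases Nat.eq_zero_or_pos q with h0 | h0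
      · right; exact h0
      · left
        refine ⟨h0, ?_, by rw [show s * (D * (q : ℤ) + r) = φ q from rfl, hn]; exact g3⟩
        by_contra hcon
        rw [not_le] at hcon
        have h8 : (N : ℤ) + 1 ≤ q := by exact_mod_cast hcon
        push_cast at g2
        nlinarith
    simp only [hA]
    refine (Set.ncard_le_ncard hsub (((hfinB N).union (Set.finite_singleton 0)).image _)).trans ?_
    refine (Set.ncard_image_le ((hfinB N).union (Set.finite_singleton 0))).trans ?_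
    refine (Set.ncard_union_le _ _).trans ?_
    rw [Set.ncard_singleton]
    exact le_rfl
  -- limits
  have hlin : Tendsto (fun N : ℕ => D * N + r) atTop atTop := by
    apply tendsto_atTop_mono (f := fun N : ℕ => N) _ tendsto_id
    intro N
    calc N ≤ D * N := Nat.le_mul_of_pos_left _ hD0
      _ ≤ D * N + r := Nat.le_add_right _ _
  have h3 : Tendsto (fun N : ℕ => (A (D * N + r) : ℝ) / ((D * N + r : ℕ) : ℝ)) atTop (𝓝 δ) := h.comp hlin
  have h4 : Tendsto (fun N : ℕ => (((D * N + r : ℕ) : ℝ)) / N) atTop (𝓝 D) := by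
    have g1 : Tendsto (fun N : ℕ => (D : ℝ) + r / N) atTop (𝓝 (D + 0)) :=
      tendsto_const_nhds.add (tendsto_const_div_atTop_nhds_zero_nat (r : ℝ))
    rw [add_zero] at g1
    apply g1.congr'
    filter_upwards [eventually_ge_atTop 1] with N hN
    have : (N : ℝ) ≠ 0 := by
      have : (1 : ℝ) ≤ N := by exact_mod_cast hN
      linarith
    push_cast
    field_simp
  have h5 : Tendsto (fun N : ℕ => (A (D * N + r) : ℝ) / N) atTop (𝓝 (D * δ)) := by
    have g1 := h4.mul h3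
    apply g1.congr'
    filter_upwards [eventually_ge_atTop 1] with N hN
    have : (N : ℝ) ≠ 0 := by
      have : (1 : ℝ) ≤ N := by exact_mod_cast hN
      linarith
    have h6 : ((D * N + r : ℕ) : ℝ) ≠ 0 := by
      have : 0 < D * N + r := by
        have := Nat.mul_pos hD0 (show 0 < N by omega)
        omega
      exact_mod_cast this.ne'
    field_simp
  have h6 : Tendsto (fun N : ℕ => (A (D * N + r) : ℝ) / N - 1 / N) atTop (𝓝 (D * δ - 0)) :=
    h5.sub tendsto_one_div_atTop_nhds_zero_nat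
  rw [sub_zero] at h6
  apply tendsto_of_tendsto_of_tendsto_of_le_of_le h6 h5
  · intro N
    show (A (D * N + r) : ℝ) / N - 1 / N ≤ (cq s D r S N : ℝ) / N
    rw [← sub_div]
    apply div_le_div_of_nonneg_right _ (Nat.cast_nonneg N)
    have : (A (D * N + r) : ℝ) ≤ cq s D r S N + 1 := by exact_mod_cast h2 N
    linarith
  · intro N
    show (cq s D r S N : ℝ) / N ≤ (A (D * N + r) : ℝ) / N
    apply div_le_div_of_nonneg_right _ (Nat.cast_nonneg N)
    exact_mod_cast h1 N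

theorem cq_compl (s : ℤ) (D r : ℕ) (S : Set ℤ) (N : ℕ) : cq s D r S N + cq s D r Sᶜ N = N := by
  classical
  unfold cq
  have h1 : {n : ℕ | 1 ≤ n ∧ n ≤ N ∧ s * (D * (n : ℤ) + r) ∈ S} =
      (((Icc 1 N).filter (fun n : ℕ => s * (D * (n : ℤ) + r) ∈ S) : Finset ℕ) : Set ℕ) := by
    ext n; simp [and_assoc]
  have h2 : {n : ℕ | 1 ≤ n ∧ n ≤ N ∧ s * (D * (n : ℤ) + r) ∈ Sᶜ} =
      (((Icc 1 N).filter (fun n : ℕ => ¬ s * (D * (n : ℤ) + r) ∈ S) : Finset ℕ) : Set ℕ) := by
    ext n; simp [and_assoc]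
  rw [h1, h2, Set.ncard_coe_finset, Set.ncard_coe_finset, card_filter_add_card_filter_not, Nat.card_Icc,
    Nat.add_sub_cancel]

/-- An invariant set that is not trivial in the class of a residue `s r` modulo `d`, up to factors `2` and `3`, has a large
total influence on the integers of the residue class of `s r`. -/
theorem class_large {d : ℤ} (hd : d % 2 = 1) (hd3 : ¬ (3 : ℤ) ∣ d) {S : Set ℤ} (hS : ∀ x, x ∈ S ↔ T d x ∈ S) {s : ℤ}
    (hs : s = 1 ∨ s = -1) {r : ℕ} (hr : r < d.natAbs)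
    (h1 : ∃ a ∈ S, 0 < s * a ∧ ¬ (3 : ℤ) ∣ a ∧ ResidueClasses.Rel d.natAbs (s * r) a)
    (h2 : ∃ b ∉ S, 0 < s * b ∧ ¬ (3 : ℤ) ∣ b ∧ ResidueClasses.Rel d.natAbs (s * r) b) :
    Large (fun n : ℕ => s * (d.natAbs * (n : ℤ) + r) ∈ S) := by
  have hd6 : d % 6 = 1 ∨ d % 6 = 5 := by omega
  have hodd : Odd d := Int.odd_iff.2 hd
  set D := d.natAbs with hD
  have hD2 : D % 2 = 1 := by omega
  have hD3 : D % 3 ≠ 0 := by omega
  have hg : ((Int.gcd D d : ℕ) : ℤ) = D := by
    have : Int.gcd D d = D := by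
      rw [Int.gcd_eq_natAbs, Int.natAbs_natCast, ← hD, Nat.gcd_self]
    rw [this]
  have hSc : ∀ x, x ∈ Sᶜ ↔ T d x ∈ Sᶜ := fun x => by
    rw [Set.mem_compl_iff, Set.mem_compl_iff, ← hS]
  obtain ⟨δ, e1, e2, e3⟩ := ResidueClasses.main hd6 (A := S) hS hs D (by omega)
  obtain ⟨δ', f1, f2, f3⟩ := ResidueClasses.main hd6 (A := Sᶜ) hSc hs D (by omega)
  obtain ⟨a, ha1, ha2, ha3, ha4⟩ := h1
  obtain ⟨b, hb1, hb2, hb3, hb4⟩ := h2
  have g1 := e3 (s * r) a ha1 ha2 ha3 (by rw [hg]; exact ha4)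
  have g2 := f3 (s * r) b hb1 hb2 hb3 (by rw [hg]; exact hb4)
  have l1 := cq_dens hs hr (e1 (s * r))
  have l2 := cq_dens hs hr (f1 (s * r))
  have hDr : (0 : ℝ) < D := by
    have : 0 < D := by omega
    exact_mod_cast this
  have hsum : D * δ (s * r) + D * δ' (s * r) = 1 := by
    refine tendsto_nhds_unique (l1.add l2) ?_
    apply tendsto_const_nhds.congr'
    filter_upwards [eventually_ge_atTop 1] with N hN
    rw [← add_div]
    have h3 : (cq s D r S N : ℝ) + cq s D r Sᶜ N = N := by exact_mod_cast cq_compl s D r S N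
    rw [h3, div_self]
    have : (1 : ℝ) ≤ N := by exact_mod_cast hN
    linarith
  have l0 : 0 < D * δ (s * r) := by positivity
  have l0' : 0 < D * δ' (s * r) := by positivity
  obtain ⟨σ, hσ, hσD⟩ : ∃ σ : ℤ, Sg σ ∧ s * d = σ * D := by
    rcases Int.natAbs_eq d with h | h
    · exact ⟨s, hs, by rw [hD, ← h]⟩
    · refine ⟨-s, ?_, ?_⟩
      · rcases hs with rfl | rfl
        · right; rfl
        · left; norm_num
      · rw [hD]
        linear_combination s * h
  have hS' : ∀ x, x ∈ {x | s * x ∈ S} ↔ T (σ * D) x ∈ {x | s * x ∈ S} := by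
    rw [← hσD]
    exact Pool.Agent.H499R2.ND.side_inv hodd hs (S := S) hS
  intro η hη h
  exact influence hσ hD2 hD3 hS' hr l0 (by linarith) l1 hη h

end Pool.Agent.H620.Rel
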