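import Pool.Agent.H620.Rel.Param
import Pool.Agent.H620.Inf.Final

/-! From the structure at two scales to the self-similarity, with the shifts. -/

set_option autoImplicit false

namespace Pool.Agent.H620.Rel

open Finset MeasureTheory
open Pool.Agent.H620.Bdry (Dset W vol_floor)
open Pool.Agent.H620.Inf (ind ind_nonneg ind_le_one ind_true ind_false ind_mono ind_or ind_tri ind_comm sum_split count_class
  vol_ind vol_scaled)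

theorem sum_shift_le {g : ℕ → ℝ} (hg : ∀ n, 0 ≤ g n) {N f K : ℕ} (h : N + f ≤ K) :
    ∑ z ∈ range N, g (z + f) ≤ ∑ z ∈ range K, g z := by
  have h1 : ∑ z ∈ range N, g (z + f) ≤ ∑ z ∈ range (f + N), g z := by
    rw [sum_range_add]
    have h3 : 0 ≤ ∑ x ∈ range f, g x := sum_nonneg fun _ _ => hg _
    have h4 : ∑ n ∈ range N, g (n + f) = ∑ x ∈ range N, g (f + x) := by
      apply sum_congr rfl
      intro n _
      rw [add_comm]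
    linarith
  exact h1.trans (sum_le_sum_of_subset_of_nonneg (range_subset_range.2 (by omega)) fun _ _ _ => hg _)

theorem zsum {Q : ℕ → Prop} {μ N₂ : ℕ} {Y : ℕ → Prop} {r f' : ℕ} (hr : r < 3 ^ μ) {ε₂ : ℝ}
    (S2 : ∑ q ∈ range N₂, ind (¬ (Q (3 ^ μ * q + (r + f')) ↔ Y q)) ≤ N₂ * ε₂)
    {φ : ℕ → ℕ} (hφ : Monotone φ) {k' : ℕ} {Y' : ℕ → Prop} {ε' : ℝ}
    (S1 : ∑ z ∈ range (2 ^ k'), ind (¬ (Q z ↔ Y' (φ z))) ≤ 2 ^ k' * ε')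
    (S1' : ∑ z ∈ range (2 ^ k'), ind ((3 : ℤ) ^ μ ∣ (z : ℤ) - ((r + f' : ℕ) : ℤ) ∧ ¬ (Q z ↔ Y' (φ z))) ≤
      2 ^ k' / 3 ^ μ * ε') (hk : 3 ^ μ * N₂ + f' ≤ 2 ^ k') :
    ∑ z ∈ range (3 ^ μ * N₂), ind (¬ (Q (z + f') ↔ Y (z / 3 ^ μ))) ≤
      2 * (2 ^ k' * ε') + 3 ^ μ * (φ (2 ^ k') : ℝ) + 3 ^ μ * (N₂ * ε₂) := by
  set a : ℕ → ℝ := fun z => ind (¬ (Q z ↔ Y' (φ z))) with ha
  have h3 : (0 : ℝ) < 3 ^ μ := by positivity
  rw [sum_split]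
  have hpt : ∀ q ∈ range N₂, ∀ s ∈ range (3 ^ μ),
      ind (¬ (Q (3 ^ μ * q + s + f') ↔ Y ((3 ^ μ * q + s) / 3 ^ μ))) ≤
      a (3 ^ μ * q + s + f') + ((φ (3 ^ μ * (q + 1) + f') : ℝ) - φ (3 ^ μ * q + f')) + a (3 ^ μ * q + r + f') +
        ind (¬ (Q (3 ^ μ * q + (r + f')) ↔ Y q)) := by
    intro q _ s hs
    rw [mem_range] at hs
    have e1 : (3 ^ μ * q + s) / 3 ^ μ = q := by
      rw [Nat.mul_add_div (by positivity), Nat.div_eq_of_lt hs, add_zero]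
    rw [e1]
    have h1 := ind_tri (Q (3 ^ μ * q + s + f')) (Y' (φ (3 ^ μ * q + s + f'))) (Y q)
    have h2 := ind_tri (Y' (φ (3 ^ μ * q + s + f'))) (Y' (φ (3 ^ μ * q + r + f'))) (Y q)
    have h3 := ind_tri (Y' (φ (3 ^ μ * q + r + f'))) (Q (3 ^ μ * q + r + f')) (Y q)
    have h4 : ind (¬ (Y' (φ (3 ^ μ * q + s + f')) ↔ Y' (φ (3 ^ μ * q + r + f')))) ≤
        (φ (3 ^ μ * (q + 1) + f') : ℝ) - φ (3 ^ μ * q + f') := by
      have e5 : 3 ^ μ * (q + 1) = 3 ^ μ * q + 3 ^ μ := by ring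
      have m1 : φ (3 ^ μ * q + f') ≤ φ (3 ^ μ * q + s + f') := hφ (by omega)
      have m2 : φ (3 ^ μ * q + f') ≤ φ (3 ^ μ * q + r + f') := hφ (by omega)
      have m3 : φ (3 ^ μ * q + s + f') ≤ φ (3 ^ μ * (q + 1) + f') := hφ (by omega)
      have m4 : φ (3 ^ μ * q + r + f') ≤ φ (3 ^ μ * (q + 1) + f') := hφ (by omega)
      by_cases he : φ (3 ^ μ * q + s + f') = φ (3 ^ μ * q + r + f')
      · rw [he, ind_false (not_not.2 Iff.rfl)]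
        have : (φ (3 ^ μ * q + f') : ℝ) ≤ φ (3 ^ μ * (q + 1) + f') := by exact_mod_cast m1.trans m3
        linarith
      · have h5 : φ (3 ^ μ * q + f') + 1 ≤ φ (3 ^ μ * (q + 1) + f') := by omega
        have h6 : (φ (3 ^ μ * q + f') : ℝ) + 1 ≤ φ (3 ^ μ * (q + 1) + f') := by exact_mod_cast h5
        have := ind_le_one (¬ (Y' (φ (3 ^ μ * q + s + f')) ↔ Y' (φ (3 ^ μ * q + r + f'))))
        linarith
    have e3 : a (3 ^ μ * q + r + f') = ind (¬ (Y' (φ (3 ^ μ * q + r + f')) ↔ Q (3 ^ μ * q + r + f'))) := by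
      simp only [ha]
      rw [ind_comm]
    rw [e3]
    simp only [ha]
    have e4 : 3 ^ μ * q + (r + f') = 3 ^ μ * q + r + f' := by ring
    rw [e4]
    linarith
  refine (sum_le_sum fun q hq => sum_le_sum fun s hs => hpt q hq s hs).trans ?_
  simp_rw [sum_add_distrib, sum_const, card_range, nsmul_eq_mul]
  rw [← mul_sum, ← mul_sum, ← mul_sum]
  push_cast
  -- first
  have t1 : ∑ q ∈ range N₂, ∑ s ∈ range (3 ^ μ), a (3 ^ μ * q + s + f') ≤ 2 ^ k' * ε' := by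
    have h5 : ∑ q ∈ range N₂, ∑ s ∈ range (3 ^ μ), a (3 ^ μ * q + s + f') =
        ∑ z ∈ range (3 ^ μ * N₂), a (z + f') := (sum_split (3 ^ μ) N₂ (fun z => a (z + f'))).symm
    rw [h5]
    exact (sum_shift_le (fun _ => ind_nonneg _) hk).trans S1
  have t2 : ∑ q ∈ range N₂, ((φ (3 ^ μ * (q + 1) + f') : ℝ) - φ (3 ^ μ * q + f')) ≤ φ (2 ^ k') := by
    have := sum_range_sub (fun q => (φ (3 ^ μ * q + f') : ℝ)) N₂
    rw [this]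
    have h5 : (φ (3 ^ μ * N₂ + f') : ℝ) ≤ φ (2 ^ k') := by exact_mod_cast hφ hk
    have h6 : (0 : ℝ) ≤ φ (3 ^ μ * 0 + f') := Nat.cast_nonneg _
    linarith
  have t3 : 3 ^ μ * ∑ q ∈ range N₂, a (3 ^ μ * q + r + f') ≤ 2 ^ k' * ε' := by
    set g : ℕ → ℝ := fun z => ind ((3 : ℤ) ^ μ ∣ (z : ℤ) - ((r + f' : ℕ) : ℤ) ∧ ¬ (Q z ↔ Y' (φ z))) with hg
    have h5 : ∑ q ∈ range N₂, a (3 ^ μ * q + r + f') ≤ 2 ^ k' / 3 ^ μ * ε' := by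
      refine le_trans ?_ S1'
      refine le_trans ?_ (sum_shift_le (g := g) (fun _ => ind_nonneg _) hk)
      rw [sum_split]
      apply sum_le_sum
      intro q _
      refine le_trans ?_ (single_le_sum (f := fun s => g (3 ^ μ * q + s + f')) (fun _ _ => ind_nonneg _)
        (mem_range.2 hr))
      simp only [ha, hg]
      apply ind_mono
      intro h
      refine ⟨⟨q, ?_⟩, h⟩
      push_cast
      ring
    calc 3 ^ μ * ∑ q ∈ range N₂, a (3 ^ μ * q + r + f') ≤ 3 ^ μ * (2 ^ k' / 3 ^ μ * ε') := by gcongr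
      _ = 2 ^ k' * ε' := by field_simp
  have t4 : 3 ^ μ * ∑ q ∈ range N₂, ind (¬ (Q (3 ^ μ * q + (r + f')) ↔ Y q)) ≤ 3 ^ μ * (N₂ * ε₂) := by gcongr
  have t2' : 3 ^ μ * ∑ q ∈ range N₂, ((φ (3 ^ μ * (q + 1) + f') : ℝ) - φ (3 ^ μ * q + f')) ≤
      3 ^ μ * (φ (2 ^ k') : ℝ) := by gcongr
  linarith

theorem combine {Q : ℕ → Prop} {J w μ o₀ f f' : ℕ} (hμ : μ ≤ o₀) {Y : ℕ → Prop} {r : ℕ} (hr : r < 3 ^ μ) {ε₁ ε₂ : ℝ}
    (hf1 : 2 ^ J * f' ≤ 3 ^ o₀ * f) (hf2 : 3 ^ o₀ * f ≤ 2 ^ J * (f' + 1)) (hle : 3 ^ o₀ ≤ 2 ^ J)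
    (S1 : ∑ n ∈ range (2 ^ (J + w)), ind (¬ (Q n ↔ Y (3 ^ (o₀ - μ) * (n - f) / 2 ^ J))) ≤ 2 ^ (J + w) * ε₁)
    (S2 : ∑ q ∈ range (3 ^ (o₀ - μ) * 2 ^ w), ind (¬ (Q (3 ^ μ * q + (r + f')) ↔ Y q)) ≤
      3 ^ (o₀ - μ) * 2 ^ w * ε₂)
    {φ : ℕ → ℕ} (hφ : Monotone φ) {k' : ℕ} {Y' : ℕ → Prop} {ε' ν : ℝ} (hε' : 0 ≤ ε') (hε₁ : 0 ≤ ε₁) (hε₂ : 0 ≤ ε₂)
    (hν : (φ (2 ^ k') : ℝ) ≤ 2 ^ k' * ν) (hν0 : 0 ≤ ν)
    (S1' : ∑ z ∈ range (2 ^ k'), ind (¬ (Q z ↔ Y' (φ z))) ≤ 2 ^ k' * ε')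
    (S1'' : ∑ z ∈ range (2 ^ k'), ind ((3 : ℤ) ^ μ ∣ (z : ℤ) - ((r + f' : ℕ) : ℤ) ∧ ¬ (Q z ↔ Y' (φ z))) ≤
      2 ^ k' / 3 ^ μ * ε') (hk : 2 * (3 ^ o₀ * 2 ^ w) ≤ 2 ^ k') (hk2 : 2 ^ k' ≤ 4 * (3 ^ o₀ * 2 ^ w))
    {x : ℝ} (hx : 0 < x) (hfx : (f : ℝ) ≤ x) (hx2 : 2 * x < 2 ^ (J + w)) (hx4 : 2 ^ (J + w) ≤ 4 * x) :
    volume (Dset Q x (3 ^ o₀ / 2 ^ J)) ≤
      ENNReal.ofReal (4 * (ε₁ + 15 / 3 ^ μ + (8 * ε' + 4 * (3 ^ μ * ν) + ε₂)) * x) := by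
  set N₁ := 3 ^ (o₀ - μ) with hN₁
  have hN₁r : ((N₁ : ℕ) : ℝ) = 3 ^ (o₀ - μ) := by rw [hN₁]; push_cast; rfl
  set κ : ℝ := 3 ^ o₀ / 2 ^ J with hκd
  have hκ : 0 < κ := by positivity
  have h2J : (0 : ℝ) < 2 ^ J := by positivity
  have h3μ : (0 : ℝ) < 3 ^ μ := by positivity
  have hκ1 : κ ≤ 1 := by
    rw [hκd, div_le_one h2J]
    exact_mod_cast hle
  have h3o : (3 : ℝ) ^ o₀ = 3 ^ μ * N₁ := by rw [hN₁r, ← pow_add]; congr 1; omega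
  have hN₁0 : (N₁ : ℝ) ≠ 0 := by rw [hN₁r]; positivity
  have h3on : (3 : ℕ) ^ o₀ = 3 ^ μ * N₁ := by rw [hN₁, ← pow_add]; congr 1; omega
  have h2k : (2 : ℝ) ^ (J + w) = 2 ^ J * 2 ^ w := pow_add _ _ _
  have e0 : 3 ^ μ * (N₁ * 2 ^ w) = 3 ^ o₀ * 2 ^ w := by rw [h3on]; ring
  -- the shifts
  have hκf1 : (f' : ℝ) ≤ κ * f := by
    rw [hκd, div_mul_eq_mul_div, le_div_iff₀ h2J]
    have : ((2 ^ J * f' : ℕ) : ℝ) ≤ ((3 ^ o₀ * f : ℕ) : ℝ) := by exact_mod_cast hf1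
    push_cast at this
    linarith
  have hκf2 : κ * f ≤ f' + 1 := by
    rw [hκd, div_mul_eq_mul_div, div_le_iff₀ h2J]
    have : ((3 ^ o₀ * f : ℕ) : ℝ) ≤ ((2 ^ J * (f' + 1) : ℕ) : ℝ) := by exact_mod_cast hf2
    push_cast at this
    linarith
  have hZκ : κ * 2 ^ (J + w) = ((3 ^ o₀ * 2 ^ w : ℕ) : ℝ) := by
    rw [hκd, h2k]; push_cast; field_simp
  have hf'Z : f' ≤ 3 ^ o₀ * 2 ^ w := by
    have h1 : (f' : ℝ) ≤ ((3 ^ o₀ * 2 ^ w : ℕ) : ℝ) := by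
      rw [← hZκ]
      refine hκf1.trans (mul_le_mul_of_nonneg_left ?_ hκ.le)
      linarith
    exact_mod_cast h1
  have hz := zsum (Q := Q) (N₂ := N₁ * 2 ^ w) (Y := Y) hr (ε₂ := ε₂) (by push_cast; rw [hN₁r]; exact S2)
    hφ S1' S1'' (by rw [e0]; omega)
  set A1 : Set ℝ := {y | x ≤ y ∧ y ≤ 2 * x ∧ ¬ (Q ⌊y⌋₊ ↔ Y (N₁ * (⌊y⌋₊ - f) / 2 ^ J))} with hA1
  set B2 : ℕ → Prop := fun z => (3 : ℤ) ^ μ ∣ (z : ℤ) - f' ∨ (3 : ℤ) ^ μ ∣ (z : ℤ) - (f' + 1) ∨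
    (3 : ℤ) ^ μ ∣ (z : ℤ) - (f' - 1) with hB2
  set A2 : Set ℝ := {y | x ≤ y ∧ y ≤ 2 * x ∧ B2 ⌊κ * y⌋₊} with hA2
  set A3 : Set ℝ := {y | x ≤ y ∧ y ≤ 2 * x ∧ ¬ (Q ⌊κ * y⌋₊ ↔ Y ((⌊κ * y⌋₊ - f') / 3 ^ μ))} with hA3
  have hfl' : ∀ y : ℝ, x ≤ y → f' ≤ ⌊κ * y⌋₊ := by
    intro y hy
    apply Nat.le_floor
    refine hκf1.trans (mul_le_mul_of_nonneg_left (hfx.trans hy) hκ.le)
  have hsub : Dset Q x κ ⊆ A1 ∪ A2 ∪ A3 := by
    rintro y ⟨h1, h2, h3⟩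
    by_contra hcon
    rw [Set.mem_union, Set.mem_union, not_or, not_or] at hcon
    obtain ⟨⟨c1, c2⟩, c3⟩ := hcon
    have d1 : Q ⌊y⌋₊ ↔ Y (N₁ * (⌊y⌋₊ - f) / 2 ^ J) := by
      by_contra h; exact c1 ⟨h1, h2, h⟩
    have d2 : ¬ B2 ⌊κ * y⌋₊ := fun h => c2 ⟨h1, h2, h⟩
    have d3 : Q ⌊κ * y⌋₊ ↔ Y ((⌊κ * y⌋₊ - f') / 3 ^ μ) := by
      by_contra h; exact c3 ⟨h1, h2, h⟩
    have hy0 : 0 ≤ y := by linarith
    have hfy : f ≤ ⌊y⌋₊ := Nat.le_floor (hfx.trans h1)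
    have hfy' := hfl' y h1
    have e1 : N₁ * (⌊y⌋₊ - f) / 2 ^ J = (⌊κ * y⌋₊ - f') / 3 ^ μ := by
      obtain ⟨n, hn⟩ : ∃ n, ⌊y⌋₊ = f + n := ⟨⌊y⌋₊ - f, by omega⟩
      obtain ⟨a, ha⟩ : ∃ a, ⌊κ * y⌋₊ = f' + a := ⟨⌊κ * y⌋₊ - f', by omega⟩
      have f1 : (⌊y⌋₊ : ℝ) ≤ y := Nat.floor_le hy0
      have f2 : y < ⌊y⌋₊ + 1 := Nat.lt_floor_add_one y
      have f3 : (⌊κ * y⌋₊ : ℝ) ≤ κ * y := Nat.floor_le (by positivity)
      have f4 : κ * y < ⌊κ * y⌋₊ + 1 := Nat.lt_floor_add_one _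
      rw [hn] at f1 f2
      rw [ha] at f3 f4
      push_cast at f1 f2 f3 f4
      rw [hn, ha, Nat.add_sub_cancel_left, Nat.add_sub_cancel_left]
      have hp : 0 < 3 ^ μ := by positivity
      have hdm := Nat.div_add_mod a (3 ^ μ)
      have hml := Nat.mod_lt a hp
      set q := a / 3 ^ μ with hq
      set s := a % 3 ^ μ with hs
      have hs1 : 2 ≤ s ∧ s + 2 ≤ 3 ^ μ := by
        rw [ha] at d2
        simp only [hB2, not_or] at d2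
        obtain ⟨g1, g2, g3⟩ := d2
        have z0 : ((f' + a : ℕ) : ℤ) - f' = 3 ^ μ * (q : ℤ) + s := by
          rw [← hdm]; push_cast; ring
        refine ⟨?_, ?_⟩
        · by_contra hcon
          have : s = 0 ∨ s = 1 := by omega
          rcases this with h | h
          · apply g1
            rw [z0, h]
            exact ⟨q, by push_cast; ring⟩
          · apply g2
            have : ((f' + a : ℕ) : ℤ) - (f' + 1) = (((f' + a : ℕ) : ℤ) - f') - 1 := by ring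
            rw [this, z0, h]
            exact ⟨q, by push_cast; ring⟩
        · by_contra hcon
          have h5 : s + 1 = 3 ^ μ := by omega
          apply g3
          have h6 : ((f' + a : ℕ) : ℤ) - (f' - 1) = (((f' + a : ℕ) : ℤ) - f') + 1 := by ring
          rw [h6, z0]
          have h7 : (s : ℤ) + 1 = 3 ^ μ := by exact_mod_cast h5
          exact ⟨q + 1, by linear_combination h7⟩
      have hs1r : (2 : ℝ) ≤ s := by exact_mod_cast hs1.1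
      have hs2r : (s : ℝ) + 2 ≤ 3 ^ μ := by exact_mod_cast hs1.2
      have hdmr : (3 : ℝ) ^ μ * q + s = a := by exact_mod_cast hdm
      -- `κ n` is near `a`
      have k1 : κ * n < a + 1 := by
        have h5 : κ * (f + n) ≤ κ * y := mul_le_mul_of_nonneg_left f1 hκ.le
        have h6 : κ * (f + n) = κ * f + κ * n := by ring
        linarith
      have k2 : a - 2 < κ * n := by
        have h5 : κ * y < κ * (f + n + 1) := mul_lt_mul_of_pos_left f2 hκ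
        have h6 : κ * (f + n + 1) = κ * f + κ * n + κ := by ring
        linarith
      have e3 : κ * n = 3 ^ μ * (N₁ * n / 2 ^ J) := by
        rw [hκd, h3o]; field_simp
      rw [e3] at k1 k2
      have k3 : (N₁ * n / 2 ^ J : ℝ) < q + 1 := by
        by_contra h
        rw [not_lt] at h
        have := mul_le_mul_of_nonneg_left h h3μ.le
        linarith
      have k4 : (q : ℝ) ≤ N₁ * n / 2 ^ J := by
        by_contra h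
        rw [not_le] at h
        have := mul_lt_mul_of_pos_left h h3μ
        linarith
      rw [div_lt_iff₀ h2J] at k3
      rw [le_div_iff₀ h2J] at k4
      apply Nat.div_eq_of_lt_le
      · exact_mod_cast k4
      · exact_mod_cast k3
    apply h3
    show Q ⌊y⌋₊ ↔ Q ⌊κ * y⌋₊
    rw [d1, d3, e1]
  have hlt : ∀ y : ℝ, x ≤ y → y ≤ 2 * x → ⌊y⌋₊ < 2 ^ (J + w) := by
    intro y h1 h2
    rw [Nat.floor_lt (by linarith)]
    push_cast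
    linarith
  have hltκ : ∀ y : ℝ, x ≤ y → y ≤ 2 * x → ⌊κ * y⌋₊ < 3 ^ o₀ * 2 ^ w := by
    intro y h1 h2
    have hy0 : 0 ≤ κ * y := by
      have : 0 ≤ y := by linarith
      positivity
    rw [Nat.floor_lt hy0, ← hZκ]
    exact mul_lt_mul_of_pos_left (by linarith) hκ
  have hκi : κ⁻¹ * (3 ^ μ * (N₁ * 2 ^ w)) = 2 ^ (J + w) := by
    rw [hκd, h3o, h2k]
    field_simp
  have hk2r : (2 : ℝ) ^ k' ≤ 4 * (3 ^ μ * (N₁ * 2 ^ w)) := by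
    have : ((2 ^ k' : ℕ) : ℝ) ≤ ((4 * (3 ^ o₀ * 2 ^ w) : ℕ) : ℝ) := by exact_mod_cast hk2
    push_cast at this
    rw [h3o] at this
    linarith
  have hκk : κ⁻¹ * 2 ^ k' ≤ 4 * 2 ^ (J + w) := by
    calc κ⁻¹ * 2 ^ k' ≤ κ⁻¹ * (4 * (3 ^ μ * (N₁ * 2 ^ w))) := by gcongr
      _ = 4 * (κ⁻¹ * (3 ^ μ * (N₁ * 2 ^ w))) := by ring
      _ = _ := by rw [hκi]
  have hκ3 : κ⁻¹ ≤ 2 ^ (J + w) / 3 ^ μ := by
    rw [le_div_iff₀ h3μ, ← hκi]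
    apply mul_le_mul_of_nonneg_left _ (by positivity)
    apply le_mul_of_one_le_right h3μ.le
    rw [hN₁r]
    have h1 : (1 : ℝ) ≤ 3 ^ (o₀ - μ) := one_le_pow₀ (by norm_num)
    have h2 : (1 : ℝ) ≤ 2 ^ w := one_le_pow₀ (by norm_num)
    nlinarith
  have v1 : volume A1 ≤ ENNReal.ofReal (2 ^ (J + w) * ε₁) := by
    refine (vol_ind (fun n => ¬ (Q n ↔ Y (N₁ * (n - f) / 2 ^ J))) (2 ^ (J + w)) ?_).trans
      (ENNReal.ofReal_le_ofReal S1)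
    rintro y ⟨h1, h2, h3⟩
    exact ⟨by linarith, hlt y h1 h2, h3⟩
  have v2 : volume A2 ≤ ENNReal.ofReal (2 ^ (J + w) * (15 / 3 ^ μ)) := by
    refine (vol_scaled B2 (2 ^ k') hκ ?_).trans (ENNReal.ofReal_le_ofReal ?_)
    · rintro y ⟨h1, h2, h3⟩
      have hy0 : 0 ≤ κ * y := by
        have : 0 ≤ y := by linarith
        positivity
      exact ⟨hy0, by have := hltκ y h1 h2; omega, h3⟩
    · have h1 : ∑ n ∈ range (2 ^ k'), ind (B2 n) ≤ 3 * (2 ^ k' / 3 ^ μ + 1) := by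
        have h2 : ∀ c : ℤ, ∑ n ∈ range (2 ^ k'), ind ((3 : ℤ) ^ μ ∣ (n : ℤ) - c) ≤ 2 ^ k' / 3 ^ μ + 1 := by
          intro c
          have := count_class 0 μ k' 0 c
          simpa using this
        have h3 : ∀ n ∈ range (2 ^ k'), ind (B2 n) ≤ ind ((3 : ℤ) ^ μ ∣ (n : ℤ) - f') +
            (ind ((3 : ℤ) ^ μ ∣ (n : ℤ) - (f' + 1)) + ind ((3 : ℤ) ^ μ ∣ (n : ℤ) - (f' - 1))) := by
          intro n _
          refine (ind_or _ _).trans (add_le_add_right (ind_or _ _) _)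
        refine (sum_le_sum h3).trans ?_
        rw [sum_add_distrib, sum_add_distrib]
        have a1 := h2 f'
        have a2 := h2 (f' + 1)
        have a3 := h2 (f' - 1)
        linarith
      calc κ⁻¹ * ∑ n ∈ range (2 ^ k'), ind (B2 n) ≤ κ⁻¹ * (3 * (2 ^ k' / 3 ^ μ + 1)) := by gcongr
        _ = 3 * ((κ⁻¹ * 2 ^ k') / 3 ^ μ) + 3 * κ⁻¹ := by ring
        _ ≤ 3 * ((4 * 2 ^ (J + w)) / 3 ^ μ) + 3 * (2 ^ (J + w) / 3 ^ μ) := by gcongr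
        _ = 2 ^ (J + w) * (15 / 3 ^ μ) := by ring
  have v3 : volume A3 ≤ ENNReal.ofReal (κ⁻¹ * (2 * (2 ^ k' * ε') +
      3 ^ μ * (φ (2 ^ k') : ℝ) + 3 ^ μ * ((N₁ * 2 ^ w : ℕ) * ε₂))) := by
    set B3 : ℕ → Prop := fun z => f' ≤ z ∧ ¬ (Q z ↔ Y ((z - f') / 3 ^ μ)) with hB3
    refine (vol_scaled B3 (f' + 3 ^ μ * (N₁ * 2 ^ w)) hκ ?_).trans
      (ENNReal.ofReal_le_ofReal (mul_le_mul_of_nonneg_left ?_ (by positivity)))
    · rintro y ⟨h1, h2, h3⟩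
      have hy0 : 0 ≤ κ * y := by
        have : 0 ≤ y := by linarith
        positivity
      refine ⟨hy0, ?_, hfl' y h1, h3⟩
      have := hltκ y h1 h2
      rw [e0]
      omega
    · refine le_trans ?_ hz
      rw [sum_range_add]
      have h1 : ∑ z ∈ range f', ind (B3 z) = 0 := by
        apply sum_eq_zero
        intro z hz'
        rw [mem_range] at hz'
        apply ind_false
        rintro ⟨h1, _⟩
        omega
      rw [h1, zero_add]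
      apply sum_le_sum
      intro z _
      apply ind_mono
      rintro ⟨_, h2⟩
      rw [Nat.add_sub_cancel_left, add_comm f' z] at h2
      exact h2
  have hb : κ⁻¹ * (2 * (2 ^ k' * ε') + 3 ^ μ * (φ (2 ^ k') : ℝ) +
      3 ^ μ * ((N₁ * 2 ^ w : ℕ) * ε₂)) ≤ 2 ^ (J + w) * (8 * ε' + 4 * (3 ^ μ * ν) + ε₂) := by
    have h3 : κ⁻¹ * (3 ^ μ * ((N₁ * 2 ^ w : ℕ) * ε₂)) = 2 ^ (J + w) * ε₂ := by
      rw [← hκi]; push_cast; ring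
    have h4 : κ⁻¹ * (2 * (2 ^ k' * ε')) ≤ 2 ^ (J + w) * (8 * ε') := by
      calc κ⁻¹ * (2 * (2 ^ k' * ε')) = (κ⁻¹ * 2 ^ k') * (2 * ε') := by ring
        _ ≤ (4 * 2 ^ (J + w)) * (2 * ε') := by gcongr
        _ = _ := by ring
    have h5 : κ⁻¹ * (3 ^ μ * (φ (2 ^ k') : ℝ)) ≤ 2 ^ (J + w) * (4 * (3 ^ μ * ν)) := by
      calc κ⁻¹ * (3 ^ μ * (φ (2 ^ k') : ℝ)) ≤ κ⁻¹ * (3 ^ μ * (2 ^ k' * ν)) := by gcongr
        _ = (κ⁻¹ * 2 ^ k') * (3 ^ μ * ν) := by ring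
        _ ≤ (4 * 2 ^ (J + w)) * (3 ^ μ * ν) := by gcongr
        _ = _ := by ring
    rw [mul_add, mul_add, h3]
    linarith
  have hs2 : 0 ≤ 8 * ε' + 4 * (3 ^ μ * ν) + ε₂ := by positivity
  calc volume (Dset Q x κ) ≤ volume (A1 ∪ A2 ∪ A3) := measure_mono hsub
    _ ≤ volume A1 + volume A2 + volume A3 := (measure_union_le _ _).trans (add_le_add_left (measure_union_le _ _) _)
    _ ≤ ENNReal.ofReal (2 ^ (J + w) * ε₁) + ENNReal.ofReal (2 ^ (J + w) * (15 / 3 ^ μ)) +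
        ENNReal.ofReal (2 ^ (J + w) * (8 * ε' + 4 * (3 ^ μ * ν) + ε₂)) := by
        gcongr
        exact v3.trans (ENNReal.ofReal_le_ofReal hb)
    _ = ENNReal.ofReal (2 ^ (J + w) * (ε₁ + 15 / 3 ^ μ + (8 * ε' + 4 * (3 ^ μ * ν) + ε₂))) := by
        rw [← ENNReal.ofReal_add (by positivity) (by positivity), ← ENNReal.ofReal_add (by positivity) (by positivity)]
        congr 1
        ring
    _ ≤ _ := by
        apply ENNReal.ofReal_le_ofReal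
        calc _ ≤ 4 * x * (ε₁ + 15 / 3 ^ μ + (8 * ε' + 4 * (3 ^ μ * ν) + ε₂)) :=
              mul_le_mul_of_nonneg_right hx4 (by positivity)
          _ = _ := by ring

end Pool.Agent.H620.Rel
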