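import Pool.Agent.H620.Rel.Comb

/-! The self-similarity of an invariant set in a residue class. -/

set_option autoImplicit false

namespace Pool.Agent.H620.Rel

open Finset Filter Topology MeasureTheory
open Pool.Agent.H620.Bdry (Dset W)
open Pool.Agent.H620.Inf (ind ind_nonneg ev_exp ev_pow log3_bd ev_stage)

theorem stage {A δ : ℝ} (hδ : 0 < δ) (hδ1 : δ ≤ 1 / 16) (hA : 1 ≤ A) {Q : ℕ → Prop}
    (hstr : ∀ᶠ k : ℕ in atTop, Str' Q A δ k) : ∀ᶠ k : ℕ in atTop, ∀ x : ℝ, 0 < x → 2 * x < 2 ^ k → 2 ^ k ≤ 4 * x →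
    ∃ κ : ℝ, 0 < κ ∧ κ ≤ Real.exp (-((k : ℝ) / 80)) ∧ Real.exp (-(((k : ℝ) / 4) * Real.log 2)) ≤ κ ∧
      volume (Dset Q x κ) ≤ ENNReal.ofReal (200 * A * (k : ℝ) ^ (-δ) * x) := by
  obtain ⟨K₀, hK₀⟩ := eventually_atTop.1 hstr
  have h1 := tendsto_natCast_atTop_atTop.eventually (ev_stage hδ hδ1)
  filter_upwards [h1, eventually_ge_atTop (2 * K₀)] with k hk hkK x hx hx2 hx4
  obtain ⟨k1, k2, k3⟩ := hk
  have hkr0 : (0 : ℝ) < k := by linarith
  obtain ⟨J, μ, o₀, f, f', r, Y, hJ8, hJ4, hμ, hμo, hr, hκ, hf1, hf2, hf3, hμ3, hS1, hS2⟩ := hK₀ k (by omega)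
  have hJ4r : 4 * (J : ℝ) ≤ k := by exact_mod_cast hJ4
  set w := k - J with hw
  have hJw : J + w = k := by omega
  set Z := 3 ^ o₀ * 2 ^ w with hZ
  have hwr : 3 * (k : ℝ) / 4 ≤ w := by
    rw [hw, Nat.cast_sub (by omega)]
    linarith
  have hZ2 : 2 ^ w ≤ Z := Nat.le_mul_of_pos_left _ (by positivity)
  have hZ1 : 1 < Z := by
    have h5 : 2 ^ 1 ≤ 2 ^ w := Nat.pow_le_pow_right (by norm_num) (by
      have : (1 : ℝ) ≤ w := by linarith
      exact_mod_cast this)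
    omega
  set k'' := Nat.clog 2 Z with hk''
  have hk'1 : Z ≤ 2 ^ k'' := Nat.le_pow_clog (by norm_num) Z
  have hk'2 : 2 ^ k'' ≤ 2 * Z := by
    have h5 := Nat.pow_pred_clog_lt_self (b := 2) (by norm_num) hZ1
    have h6 : 0 < k'' := Nat.clog_pos (by norm_num) hZ1
    have h7 : 2 ^ k'' = 2 * 2 ^ (k''.pred) := by
      rw [← pow_succ']
      congr 1
      exact (Nat.succ_pred_eq_of_pos h6).symm
    rw [h7]
    exact Nat.mul_le_mul_left _ h5.le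
  have hk'w : w ≤ k'' := by
    have : 2 ^ w ≤ 2 ^ k'' := hZ2.trans hk'1
    exact (Nat.pow_le_pow_iff_right (by norm_num)).1 this
  set k' := k'' + 1 with hk'
  have hk'r : 3 * (k : ℝ) / 4 ≤ k' := hwr.trans (by exact_mod_cast hk'w.trans (Nat.le_succ _))
  have hk'0 : (0 : ℝ) < k' := by linarith
  obtain ⟨J', μ', o₀', g, g', r', Y', hJ8', hJ4', hμ', hμo', hr', hκ', hg1, hg2, hg3, hμ3', hS1', hS2'⟩ := hK₀ k' (by
    have : (K₀ : ℝ) ≤ k' := by
      have : 2 * (K₀ : ℝ) ≤ k := by exact_mod_cast hkK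
      linarith
    exact_mod_cast this)
  set y := (k : ℝ) ^ (-δ) with hy
  have hy0 : 0 < y := Real.rpow_pos_of_pos hkr0 _
  have h43 : ((4 : ℝ) / 3) ^ δ ≤ 4 / 3 := by
    calc ((4 : ℝ) / 3) ^ δ ≤ (4 / 3) ^ (1 : ℝ) := Real.rpow_le_rpow_of_exponent_le (by norm_num) (by linarith)
      _ = 4 / 3 := Real.rpow_one _
  have hkk' : (k : ℝ) ^ δ ≤ 4 / 3 * (k' : ℝ) ^ δ := by
    calc (k : ℝ) ^ δ ≤ (4 / 3 * k') ^ δ := Real.rpow_le_rpow hkr0.le (by linarith) hδ.le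
      _ = (4 / 3) ^ δ * (k' : ℝ) ^ δ := Real.mul_rpow (by norm_num) hk'0.le
      _ ≤ 4 / 3 * (k' : ℝ) ^ δ := by gcongr
  have hy' : (k' : ℝ) ^ (-δ) ≤ 4 / 3 * y := by
    have e1 : (k : ℝ) ^ δ * y = 1 := by rw [hy, ← Real.rpow_add hkr0]; simp
    have e2 : (k' : ℝ) ^ δ * (k' : ℝ) ^ (-δ) = 1 := by rw [← Real.rpow_add hk'0]; simp
    have h5 : 0 < (k' : ℝ) ^ (-δ) := Real.rpow_pos_of_pos hk'0 _
    calc (k' : ℝ) ^ (-δ) = (k' : ℝ) ^ (-δ) * ((k : ℝ) ^ δ * y) := by rw [e1, mul_one]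
      _ ≤ (k' : ℝ) ^ (-δ) * ((4 / 3 * (k' : ℝ) ^ δ) * y) := by gcongr
      _ = 4 / 3 * ((k' : ℝ) ^ δ * (k' : ℝ) ^ (-δ)) * y := by ring
      _ = 4 / 3 * y := by rw [e2, mul_one]
  have hA0 : 0 < A := by linarith
  -- the classes
  have g1 : ∑ n ∈ range (2 ^ (J + w)), ind (¬ (Q n ↔ Y (3 ^ (o₀ - μ) * (n - f) / 2 ^ J))) ≤ 2 ^ (J + w) * (A * y) := by
    have h5 := hS1 0 (by push_cast; positivity) 0
    simp only [pow_zero, one_dvd, true_and, div_one] at h5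
    rw [hJw]
    exact h5
  set φ : ℕ → ℕ := fun z => 3 ^ (o₀' - μ') * (z - g) / 2 ^ J' with hφ
  have hφm : Monotone φ := by
    intro a b hab
    exact Nat.div_le_div_right (Nat.mul_le_mul_left _ (Nat.sub_le_sub_right hab _))
  have g2 : ∑ z ∈ range (2 ^ k'), ind (¬ (Q z ↔ Y' (φ z))) ≤ 2 ^ k' * (A * (k' : ℝ) ^ (-δ)) := by
    have h5 := hS1' 0 (by push_cast; positivity) 0
    simp only [pow_zero, one_dvd, true_and, div_one] at h5
    exact h5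
  have g3 := hS1' μ (by
    have h5 : 0 < (k' : ℝ) ^ δ := Real.rpow_pos_of_pos hk'0 _
    linarith) ((r + f' : ℕ) : ℤ)
  have g4 : 0 ≤ A * (k' : ℝ) ^ (-δ) := by positivity
  have hle : 3 ^ o₀ ≤ 2 ^ J := by
    have h1 : (3 : ℝ) ^ o₀ / 2 ^ J ≤ 1 := hκ.trans (Real.exp_le_one_iff.2 (by linarith))
    rw [div_le_one (by positivity)] at h1
    exact_mod_cast h1
  have hfx : (f : ℝ) ≤ x := by
    have h5 : (f : ℝ) * k ≤ 2 ^ k := by exact_mod_cast hf3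
    have h6 : (0 : ℝ) ≤ f := Nat.cast_nonneg f
    nlinarith
  have hν : (φ (2 ^ k') : ℝ) ≤ 2 ^ k' * (3 ^ o₀' / 2 ^ J') := by
    have h5 : φ (2 ^ k') ≤ 3 ^ o₀' * 2 ^ k' / 2 ^ J' := by
      simp only [hφ]
      apply Nat.div_le_div_right
      exact Nat.mul_le_mul (Nat.pow_le_pow_right (by norm_num) (by omega)) (Nat.sub_le _ _)
    have h6 : ((3 ^ o₀' * 2 ^ k' / 2 ^ J' : ℕ) : ℝ) ≤ ((3 ^ o₀' * 2 ^ k' : ℕ) : ℝ) / ((2 ^ J' : ℕ) : ℝ) := Nat.cast_div_le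
    calc (φ (2 ^ k') : ℝ) ≤ ((3 ^ o₀' * 2 ^ k' / 2 ^ J' : ℕ) : ℝ) := by exact_mod_cast h5
      _ ≤ _ := h6
      _ = 2 ^ k' * (3 ^ o₀' / 2 ^ J') := by push_cast; ring
  have n2 : (3 : ℝ) ^ μ * (3 ^ o₀' / 2 ^ J') ≤ y := by
    have h6 : (3 : ℝ) ^ μ ≤ Real.exp (1.101 * (2 * (k : ℝ) ^ δ)) := by
      have e : (3 : ℝ) ^ μ = Real.exp (μ * Real.log 3) := by
        rw [mul_comm, Real.exp_mul, Real.exp_log (by norm_num), Real.rpow_natCast]
      rw [e]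
      apply Real.exp_le_exp.2
      obtain ⟨l1, l2⟩ := log3_bd
      calc (μ : ℝ) * Real.log 3 ≤ (2 * (k : ℝ) ^ δ) * 1.101 := mul_le_mul hμ l2.le (by linarith) (by positivity)
        _ = 1.101 * (2 * (k : ℝ) ^ δ) := by ring
    calc (3 : ℝ) ^ μ * (3 ^ o₀' / 2 ^ J')
        ≤ Real.exp (1.101 * (2 * (k : ℝ) ^ δ)) * Real.exp (-((k' : ℝ) / 80)) := by gcongr
      _ = Real.exp (1.101 * (2 * (k : ℝ) ^ δ) - (k' : ℝ) / 80) := by rw [← Real.exp_add]; ring_nf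
      _ ≤ Real.exp (1.101 * (2 * (k : ℝ) ^ δ) - 3 * k / 320) := by
          apply Real.exp_le_exp.2
          linarith
      _ ≤ y := k3
  have n1 : (15 : ℝ) / 3 ^ μ ≤ 15 * y := by
    have h5 : (k : ℝ) ≤ 3 ^ μ := by exact_mod_cast hμ3
    have h6 : (k : ℝ)⁻¹ ≤ y := by
      rw [hy, ← Real.rpow_neg_one]
      exact Real.rpow_le_rpow_of_exponent_le (by linarith) (by linarith)
    calc (15 : ℝ) / 3 ^ μ ≤ 15 / k := by gcongr
      _ = 15 * (k : ℝ)⁻¹ := by rw [div_eq_mul_inv]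
      _ ≤ 15 * y := by gcongr
  have hc := combine (Q := Q) (J := J) (w := w) (μ := μ) (o₀ := o₀) (f := f) (f' := f') hμo (Y := Y) (r := r) hr
    (ε₁ := A * y) (ε₂ := A * y) hf1 hf2 hle g1 hS2 hφm (k' := k') (Y' := Y') (ε' := A * (k' : ℝ) ^ (-δ))
    (ν := 3 ^ o₀' / 2 ^ J') g4 (by positivity) (by positivity) hν (by positivity) g2 g3
    (by rw [hk', pow_succ]; omega) (by rw [hk', pow_succ]; omega) hx hfx (by rw [hJw]; exact hx2)
    (by rw [hJw]; exact hx4)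
  refine ⟨3 ^ o₀ / 2 ^ J, by positivity, hκ, ?_, hc.trans ?_⟩
  · have h5 : Real.exp (-(((k : ℝ) / 4) * Real.log 2)) ≤ 1 / 2 ^ J := by
      have e : (2 : ℝ) ^ J = Real.exp (J * Real.log 2) := by
        rw [mul_comm, Real.exp_mul, Real.exp_log (by norm_num), Real.rpow_natCast]
      rw [e, one_div, ← Real.exp_neg]
      apply Real.exp_le_exp.2
      have h6 : 0 < Real.log 2 := Real.log_pos (by norm_num)
      have : (J : ℝ) * Real.log 2 ≤ k / 4 * Real.log 2 := by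
        apply mul_le_mul_of_nonneg_right _ h6.le
        linarith
      linarith
    refine h5.trans ?_
    apply div_le_div_of_nonneg_right _ (by positivity)
    exact one_le_pow₀ (by norm_num)
  · apply ENNReal.ofReal_le_ofReal
    apply mul_le_mul_of_nonneg_right _ hx.le
    have h5 : A * (k' : ℝ) ^ (-δ) ≤ A * (4 / 3 * y) := by gcongr
    have h6 : y ≤ A * y := le_mul_of_one_le_left hy0.le hA
    have h7 : 200 * A * y = 200 * (A * y) := by ring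
    rw [h7]
    have h8 : A * (4 / 3 * y) = 4 / 3 * (A * y) := by ring
    rw [h8] at h5
    linarith

theorem stage' {A δ : ℝ} (hδ : 0 < δ) (hδ1 : δ ≤ 1 / 16) (hA : 1 ≤ A) {Q : ℕ → Prop}
    (hstr : ∀ᶠ k : ℕ in atTop, Str' Q A δ k) : ∃ L₁ : ℝ, 10 ≤ L₁ ∧ ∀ x : ℝ, 0 < x → L₁ ≤ Real.log x → ∃ κ : ℝ, 0 < κ ∧
      1 / 2 * Real.log x ≤ Real.log (κ * x) ∧ Real.log (κ * x) ≤ 79 / 80 * Real.log x ∧
      volume (Dset Q x κ) ≤
        ENNReal.ofReal (200 * A * (2 / δ) ^ 2 * Real.log (Real.log x) ^ (-(1 + 1 : ℝ)) * x) := by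
  obtain ⟨K₀, hK₀⟩ := eventually_atTop.1 (stage hδ hδ1 hA hstr)
  refine ⟨max 10 K₀, le_max_left _ _, fun x hx hxL => ?_⟩
  have hx10 : 10 ≤ Real.log x := (le_max_left _ _).trans hxL
  have hxK : (K₀ : ℝ) ≤ Real.log x := (le_max_right _ _).trans hxL
  have hx1 : 1 ≤ 2 * x := by
    have : Real.exp 0 < x := by
      rw [← Real.lt_log_iff_exp_lt hx]; linarith
    rw [Real.exp_zero] at this
    linarith
  obtain ⟨n, hn1, hn2⟩ := exists_nat_pow_near hx1 (show (1 : ℝ) < 2 by norm_num)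
  have l2 := Real.log_two_gt_d9
  have l2' := Real.log_two_lt_d9
  have hk1 : Real.log x ≤ ((n + 1 : ℕ) : ℝ) * Real.log 2 := by
    have h1 : Real.log x ≤ Real.log (2 ^ (n + 1)) := Real.log_le_log hx (by linarith)
    rwa [Real.log_pow] at h1
  have hk2 : ((n + 1 : ℕ) : ℝ) * Real.log 2 ≤ Real.log x + 2 * Real.log 2 := by
    have h1 : Real.log (2 ^ (n + 1)) ≤ Real.log (4 * x) := by
      apply Real.log_le_log (by positivity)
      rw [pow_succ]; linarith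
    rw [Real.log_pow, Real.log_mul (by norm_num) hx.ne', show (4 : ℝ) = 2 ^ 2 by norm_num, Real.log_pow] at h1
    push_cast at h1 ⊢
    linarith
  set k := n + 1 with hkd
  have hkx : Real.log x ≤ k := by
    have : (0 : ℝ) ≤ k := Nat.cast_nonneg k
    nlinarith
  have hkK : K₀ ≤ k := by
    have : (K₀ : ℝ) ≤ k := hxK.trans hkx
    exact_mod_cast this
  obtain ⟨κ, hκ0, hκ1, hκ2, hvol⟩ := hK₀ k hkK x hx hn2 (by rw [hkd, pow_succ]; linarith)
  have e1 : Real.log (κ * x) = Real.log κ + Real.log x := Real.log_mul hκ0.ne' hx.ne'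
  have h3 : Real.log κ ≤ -((k : ℝ) / 80) := by rwa [Real.log_le_iff_le_exp hκ0]
  have h4 : -(((k : ℝ) / 4) * Real.log 2) ≤ Real.log κ := by rwa [Real.le_log_iff_exp_le hκ0]
  refine ⟨κ, hκ0, ?_, ?_, hvol.trans (ENNReal.ofReal_le_ofReal ?_)⟩
  · rw [e1]
    have h5 : ((k : ℝ) / 4) * Real.log 2 ≤ (Real.log x + 2 * Real.log 2) / 4 := by linarith
    linarith
  · rw [e1]; linarith
  · apply mul_le_mul_of_nonneg_right _ hx.le
    have hlx0 : 0 < Real.log x := by linarith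
    have h5 : (k : ℝ) ^ (-δ) ≤ Real.log x ^ (-δ) := Real.rpow_le_rpow_of_nonpos hlx0 hkx (by linarith)
    have h6 : 1 < Real.log (Real.log x) := by
      rw [Real.lt_log_iff_exp_lt hlx0]
      have := Real.exp_one_lt_d9
      linarith
    set t := Real.log (Real.log x) with ht
    have h7 : Real.log x ^ (-δ) ≤ (2 / δ) ^ 2 * t ^ (-(1 + 1 : ℝ)) := by
      have e2 : Real.log x ^ (-δ) = Real.exp (-(δ * t)) := by
        rw [Real.rpow_def_of_pos hlx0, ← ht]; ring_nf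
      have e3 : t ^ (-(1 + 1 : ℝ)) = (t ^ 2)⁻¹ := by
        rw [Real.rpow_neg (by linarith)]
        norm_num
      rw [e2, e3, Real.exp_neg]
      have h8 : (δ * t / 2) ^ 2 ≤ Real.exp (δ * t) := by
        have h9 : δ * t / 2 ≤ Real.exp (δ * t / 2) := by
          have := Real.add_one_le_exp (δ * t / 2)
          linarith
        have h10 : Real.exp (δ * t) = Real.exp (δ * t / 2) ^ 2 := by
          rw [← Real.exp_nat_mul]; congr 1; push_cast; ring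
        rw [h10]
        exact pow_le_pow_left₀ (by positivity) h9 2
      have h11 : (2 / δ) ^ 2 * (t ^ 2)⁻¹ = ((δ * t / 2) ^ 2)⁻¹ := by field_simp
      rw [h11]
      exact inv_anti₀ (by positivity) h8
    calc 200 * A * (k : ℝ) ^ (-δ) ≤ 200 * A * ((2 / δ) ^ 2 * t ^ (-(1 + 1 : ℝ))) := by
          gcongr
          exact h5.trans h7
      _ = _ := by ring

end Pool.Agent.H620.Rel
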