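import Pool.Agent.H620.Rel.Param2
import Pool.Agent.H620.Rel.Stage
import Pool.Agent.H620.Inf2.Side
import Pool.Graph.R_seed8.Results.MP_7f88e4_nt.ResidueClasses

/-! The total influence of an invariant set of the `3x+d` map in a residue class modulo `d`. -/

set_option autoImplicit false

namespace Pool.Agent.H620.Rel

open Finset Filter Topology
open Pool.Agent.TH930.EBQ (T)
open Pool.Agent.H620.Inf (TI ev_pow ev_exp)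
open Pool.Agent.H620.Inf2 (Sg scale typq)

theorem str_all {σ : ℤ} (hσ : Sg σ) {η : ℝ} (hη : 0 < η) (hη1 : η ≤ 1 / 2) : ∃ A₀ : ℝ, 1 ≤ A₀ ∧
    ∀ {D : ℕ}, D % 2 = 1 → D % 3 ≠ 0 → ∀ {S : Set ℤ}, (∀ x, x ∈ S ↔ T (σ * D) x ∈ S) → ∀ {ra : ℕ}, ra < D →
    (∀ᶠ k : ℕ in atTop, TI (fun n : ℕ => (D * (n : ℤ) + ra) ∈ S) k ≤ 2 ^ k * (k : ℝ) ^ (1 / 2 - η)) →
    ∀ᶠ k : ℕ in atTop, Str' (fun n : ℕ => (D * (n : ℤ) + ra) ∈ S) A₀ (η / 12) k := by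
  set δ := η / 12 with hδd
  have hδ : 0 < δ := by positivity
  have hδ1 : δ ≤ 1 / 16 := by rw [hδd]; linarith
  obtain ⟨κ₀, C₀, hκ₀, hC₀, hsc⟩ := scale hσ ⌈3 / δ⌉₊
  obtain ⟨C₁, hC₁, hco⟩ := Pool.Agent.H620.Inf.coal_num
  obtain ⟨c₂, hc₂, hty⟩ := typq
  have hB : 3 ≤ δ * (⌈3 / δ⌉₊ : ℕ) := by
    have := Nat.le_ceil (3 / δ)
    rw [div_le_iff₀ hδ] at this
    linarith
  refine ⟨50 * C₀ + 20000, by linarith, fun {D} hD hD3 {S} hS {ra} hra hTI => ?_⟩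
  set Q := Nat.totient D with hQ
  have hQ0 : 0 < Q := Nat.totient_pos.2 (by omega)
  have hQ2 : (2 : ℕ) ^ Q % D = 1 % D :=
    Nat.ModEq.pow_totient ((Nat.Prime.coprime_iff_not_dvd Nat.prime_two).2 (by omega))
  have hQ3 : (3 : ℕ) ^ Q % D = 1 % D :=
    Nat.ModEq.pow_totient ((Nat.Prime.coprime_iff_not_dvd Nat.prime_three).2 (by omega))
  have h1 := tendsto_natCast_atTop_atTop.eventually (ev_all (κ₀ := κ₀) (C₁ := C₁) (c₂ := c₂) (Q := (Q : ℝ)) hδ hδ1)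
  have hTI' := (tendsto_add_atTop_nat 1).eventually hTI
  have h2 := tendsto_natCast_atTop_atTop.eventually (ev_pow 4 (show (1 : ℝ) / 2 - 12 * δ < 1 / 2 - 11 * δ by linarith))
  filter_upwards [h1, hTI', h2] with k hk hT h4
  obtain ⟨x1, x2, xQ, x3, x4, x5, x6, x8, x9⟩ := hk
  refine str_k hσ hδ hδ1 hκ₀ hC₀ hC₁ hc₂ hB hco hty hsc hD hS hra hQ0 hQ2 hQ3 x1 x2 xQ x3 x4 x5 x6 x8 x9 (hT.trans ?_)
  have hk0 : (0 : ℝ) < k := by linarith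
  have e : (1 : ℝ) / 2 - η = 1 / 2 - 12 * δ := by rw [hδd]; ring
  rw [e]
  have h5 : ((k + 1 : ℕ) : ℝ) ^ (1 / 2 - 12 * δ) ≤ 2 * (k : ℝ) ^ (1 / 2 - 12 * δ) := by
    have h6 : (0 : ℝ) ≤ 1 / 2 - 12 * δ := by rw [← e]; linarith
    calc ((k + 1 : ℕ) : ℝ) ^ (1 / 2 - 12 * δ) ≤ (2 * k) ^ (1 / 2 - 12 * δ) := by
          apply Real.rpow_le_rpow (by positivity) _ h6
          push_cast
          linarith
      _ = 2 ^ (1 / 2 - 12 * δ) * (k : ℝ) ^ (1 / 2 - 12 * δ) := Real.mul_rpow (by norm_num) hk0.le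
      _ ≤ 2 * (k : ℝ) ^ (1 / 2 - 12 * δ) := by
          gcongr
          calc (2 : ℝ) ^ (1 / 2 - 12 * δ) ≤ 2 ^ (1 : ℝ) := Real.rpow_le_rpow_of_exponent_le (by norm_num) (by linarith)
            _ = 2 := Real.rpow_one 2
  calc (2 : ℝ) ^ (k + 1) * ((k + 1 : ℕ) : ℝ) ^ (1 / 2 - 12 * δ) ≤ 2 ^ (k + 1) * (2 * (k : ℝ) ^ (1 / 2 - 12 * δ)) := by
        gcongr
    _ = 2 ^ k * (4 * (k : ℝ) ^ (1 / 2 - 12 * δ)) := by ring
    _ ≤ 2 ^ k * (k : ℝ) ^ (1 / 2 - 11 * δ) := by gcongr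

theorem influence {σ : ℤ} (hσ : Sg σ) {D : ℕ} (hD : D % 2 = 1) (hD3 : D % 3 ≠ 0) {S : Set ℤ}
    (hS : ∀ x, x ∈ S ↔ T (σ * D) x ∈ S) {ra : ℕ} (hra : ra < D) {l : ℝ} (hl0 : 0 < l) (hl1 : l < 1)
    (hl : Tendsto (fun N : ℕ => ({n : ℕ | 1 ≤ n ∧ n ≤ N ∧ (D * (n : ℤ) + ra) ∈ S}.ncard : ℝ) / N) atTop (𝓝 l))
    {η : ℝ} (hη : 0 < η)
    (h : ∀ᶠ k : ℕ in atTop, TI (fun n : ℕ => (D * (n : ℤ) + ra) ∈ S) k ≤ 2 ^ k * (k : ℝ) ^ (1 / 2 - η)) : False := by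
  set η' := min η (1 / 2) with hη'
  have hη'0 : 0 < η' := lt_min hη (by norm_num)
  have hη'1 : η' ≤ 1 / 2 := min_le_right _ _
  obtain ⟨A₀, hA, hstr⟩ := str_all hσ hη'0 hη'1
  have h1 : ∀ᶠ k : ℕ in atTop, Str' (fun n : ℕ => (D * (n : ℤ) + ra) ∈ S) A₀ (η' / 12) k := by
    apply hstr hD hD3 hS hra
    filter_upwards [h, eventually_ge_atTop 1] with k hk hk1
    refine hk.trans ?_
    apply mul_le_mul_of_nonneg_left _ (by positivity)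
    apply Real.rpow_le_rpow_of_exponent_le (by exact_mod_cast hk1)
    have := min_le_left η (1 / 2)
    linarith
  have hδ : 0 < η' / 12 := by positivity
  obtain ⟨L₁, hL₁, hst⟩ := stage' hδ (by linarith) hA h1
  refine Pool.Agent.H620.Gen.contraG (P := fun n : ℕ => (D * (n : ℤ) + ra) ∈ S) hl0 hl1 hl ?_
  intro ε hε L₂
  exact Pool.Agent.H620.Gen.multiLog (A := 200 * A₀ * (2 / (η' / 12)) ^ 2) (c := 1) (θ := 79 / 80) (θ' := 1 / 2)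
    (by positivity) hL₁ (by norm_num) (by norm_num) (by norm_num) (by norm_num) hst ε hε L₂

end Pool.Agent.H620.Rel
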