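import Pool.Agent.H620.Rel.Shift

/-! The choice of the parameters. -/

set_option autoImplicit false

namespace Pool.Agent.H620.Rel

open Finset Filter Topology
open Pool.Agent.TH930.EBQ (ones wd words cw T sum_wd)
open Pool.Agent.H499R2.CO (Tz q)
open Pool.Agent.H620.Inf (ind ind_nonneg ind_le_one ind_true ind_false ind_mono ind_or ne'_eq_ind ne' In TI exists_window
  sum_split ev_pow ev_exp log_le_pow log2_bd log3_bd ceil_bd kappa_num count_class)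
open Pool.Agent.H620.Inf2 (Sg aw cv pt typ_num)

/-- the structure at the scale `2 ^ k` -/
def Str' (Q : ℕ → Prop) (A δ : ℝ) (k : ℕ) : Prop := ∃ J μ o₀ f f' r : ℕ, ∃ Y : ℕ → Prop,
  k ≤ 8 * J ∧ 4 * J ≤ k ∧ (μ : ℝ) ≤ 2 * (k : ℝ) ^ δ ∧ μ ≤ o₀ ∧ r < 3 ^ μ ∧
  (3 : ℝ) ^ o₀ / 2 ^ J ≤ Real.exp (-((k : ℝ) / 80)) ∧
  2 ^ J * f' ≤ 3 ^ o₀ * f ∧ 3 ^ o₀ * f ≤ 2 ^ J * (f' + 1) ∧ f * k ≤ 2 ^ k ∧ k ≤ 3 ^ μ ∧
  (∀ m : ℕ, (m : ℝ) ≤ 4 * (k : ℝ) ^ δ → ∀ r₀ : ℤ,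
    ∑ n ∈ range (2 ^ k), ind ((3 : ℤ) ^ m ∣ (n : ℤ) - r₀ ∧ ¬ (Q n ↔ Y (3 ^ (o₀ - μ) * (n - f) / 2 ^ J))) ≤
      2 ^ k / 3 ^ m * (A * (k : ℝ) ^ (-δ))) ∧
  ∑ q ∈ range (3 ^ (o₀ - μ) * 2 ^ (k - J)), ind (¬ (Q (3 ^ μ * q + (r + f')) ↔ Y q)) ≤
    3 ^ (o₀ - μ) * 2 ^ (k - J) * (A * (k : ℝ) ^ (-δ))

/-- the shifts -/
theorem exists_shift {D r : ℕ} (hD : D % 2 = 1) (hr : r < D) {Q J b o₀ : ℕ} (h2 : (2 : ℕ) ^ Q % D = 1 % D)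
    (h3 : (3 : ℕ) ^ Q % D = 1 % D) (hJ : Q ∣ J) (ho : Q ∣ o₀) (hle : 3 ^ o₀ ≤ 2 ^ J) :
    ∃ f f' ρ : ℕ, f < 2 ^ (J + b) ∧ D * f + r = 2 ^ (J + b) * ρ ∧ D * f' + r = 3 ^ o₀ * (2 ^ b * ρ) ∧
      2 ^ J * f' ≤ 3 ^ o₀ * f ∧ 3 ^ o₀ * f ≤ 2 ^ J * (f' + 1) := by
  have hD0 : 0 < D := by omega
  have hco : Nat.Coprime D (2 ^ (J + b)) := by
    apply Nat.Coprime.pow_right
    exact ((Nat.Prime.coprime_iff_not_dvd Nat.prime_two).2 (by omega)).symm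
  -- `f`
  obtain ⟨f₀, hf₀⟩ : ∃ f₀ : ℕ, 2 ^ (J + b) ∣ D * f₀ + r := by
    have hco' : IsCoprime (D : ℤ) ((2 ^ (J + b) : ℕ) : ℤ) := Nat.isCoprime_iff_coprime.2 hco
    obtain ⟨u, v, huv⟩ := hco'
    have hpos : (0 : ℤ) ≤ (-(r : ℤ) * u) % ((2 ^ (J + b) : ℕ) : ℤ) := Int.emod_nonneg _ (by positivity)
    obtain ⟨n, hn⟩ := Int.eq_ofNat_of_zero_le hpos
    refine ⟨n, ?_⟩
    rw [← Int.natCast_dvd_natCast]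
    have e1 := Int.emod_add_mul_ediv (-(r : ℤ) * u) ((2 ^ (J + b) : ℕ) : ℤ)
    rw [hn] at e1
    push_cast at e1 huv ⊢
    refine ⟨r * v - D * ((-(r : ℤ) * u) / 2 ^ (J + b)), ?_⟩
    linear_combination (D : ℤ) * e1 - (r : ℤ) * huv
  set f := f₀ % 2 ^ (J + b) with hf
  have hfl : f < 2 ^ (J + b) := Nat.mod_lt _ (by positivity)
  obtain ⟨ρ, hρ⟩ : ∃ ρ, D * f + r = 2 ^ (J + b) * ρ := by
    have h1 : 2 ^ (J + b) ∣ D * f + r := by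
      have h2 : D * f₀ + r = D * f + r + 2 ^ (J + b) * (D * (f₀ / 2 ^ (J + b))) := by
        have := Nat.mod_add_div f₀ (2 ^ (J + b))
        rw [← hf] at this
        calc D * f₀ + r = D * (f + 2 ^ (J + b) * (f₀ / 2 ^ (J + b))) + r := by rw [this]
          _ = _ := by ring
      rw [h2] at hf₀
      exact (Nat.dvd_add_left (Dvd.intro _ rfl)).1 hf₀
    exact h1
  have hpow2 : ∀ n, Q ∣ n → (2 : ℕ) ^ n ≡ 1 [MOD D] := by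
    rintro n ⟨m, rfl⟩
    have : (2 : ℕ) ^ Q ≡ 1 [MOD D] := h2
    rw [pow_mul]
    simpa using this.pow m
  have hpow3 : ∀ n, Q ∣ n → (3 : ℕ) ^ n ≡ 1 [MOD D] := by
    rintro n ⟨m, rfl⟩
    have : (3 : ℕ) ^ Q ≡ 1 [MOD D] := h3
    rw [pow_mul]
    simpa using this.pow m
  have hρr : 2 ^ b * ρ ≡ r [MOD D] := by
    have h1 : 2 ^ J * (2 ^ b * ρ) ≡ 1 * (2 ^ b * ρ) [MOD D] := (hpow2 J hJ).mul_right _
    have h4 : 2 ^ J * (2 ^ b * ρ) = D * f + r := by rw [hρ, pow_add]; ring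
    rw [one_mul, h4] at h1
    have h5 : D * f + r ≡ r [MOD D] := by
      unfold Nat.ModEq
      rw [Nat.mul_add_mod]
    exact h1.symm.trans h5
  have hrle : r ≤ 2 ^ b * ρ := by
    have h1 : (2 ^ b * ρ) % D = r := by
      rw [hρr, Nat.mod_eq_of_lt hr]
    rw [← h1]
    exact Nat.mod_le _ _
  have h3ρ : 3 ^ o₀ * (2 ^ b * ρ) ≡ r [MOD D] := by
    have h1 := (hpow3 o₀ ho).mul hρr
    rwa [one_mul] at h1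
  have hrle2 : r ≤ 3 ^ o₀ * (2 ^ b * ρ) := hrle.trans (Nat.le_mul_of_pos_left _ (by positivity))
  obtain ⟨f', hf'⟩ : ∃ f', D * f' + r = 3 ^ o₀ * (2 ^ b * ρ) := by
    have h1 : D ∣ 3 ^ o₀ * (2 ^ b * ρ) - r := (Nat.modEq_iff_dvd' hrle2).1 h3ρ.symm
    obtain ⟨f', hf'⟩ := h1
    exact ⟨f', by omega⟩
  refine ⟨f, f', ρ, hfl, hρ, hf', ?_, ?_⟩
  · -- `D 2^J f' ≤ D 3^o₀ f`
    apply Nat.le_of_mul_le_mul_left _ hD0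
    have e1 : D * (2 ^ J * f') + 2 ^ J * r = 2 ^ J * (3 ^ o₀ * (2 ^ b * ρ)) := by rw [← hf']; ring
    have e2 : D * (3 ^ o₀ * f) + 3 ^ o₀ * r = 2 ^ J * (3 ^ o₀ * (2 ^ b * ρ)) := by
      calc D * (3 ^ o₀ * f) + 3 ^ o₀ * r = 3 ^ o₀ * (D * f + r) := by ring
        _ = _ := by rw [hρ, pow_add]; ring
    have e3 : 3 ^ o₀ * r ≤ 2 ^ J * r := Nat.mul_le_mul_right _ hle
    omega
  · apply Nat.le_of_mul_le_mul_left _ hD0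
    have e1 : D * (2 ^ J * f') + 2 ^ J * r = 2 ^ J * (3 ^ o₀ * (2 ^ b * ρ)) := by rw [← hf']; ring
    have e2 : D * (3 ^ o₀ * f) + 3 ^ o₀ * r = 2 ^ J * (3 ^ o₀ * (2 ^ b * ρ)) := by
      calc D * (3 ^ o₀ * f) + 3 ^ o₀ * r = 3 ^ o₀ * (D * f + r) := by ring
        _ = _ := by rw [hρ, pow_add]; ring
    have e3 : 2 ^ J * r ≤ D * 2 ^ J := by rw [mul_comm]; exact Nat.mul_le_mul_right _ hr.le
    have e4 : D * (2 ^ J * (f' + 1)) = D * (2 ^ J * f') + D * 2 ^ J := by ring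
    omega

/-- the inequalities for large `x` -/
theorem ev_all {δ κ₀ C₁ c₂ Q : ℝ} (hδ : 0 < δ) (hδ1 : δ ≤ 1 / 16) : ∀ᶠ x : ℝ in atTop,
    1000 ≤ x ∧ 6 ≤ x ^ δ ∧ Q ≤ x ^ δ ∧ (C₁ * 36 / δ) * x ^ (3 * δ / 2) ≤ x ^ (2 * δ) ∧ (128 / κ₀) * x ^ (2 * δ) ≤ x ∧
    4000 * x ^ (1 / 2 + δ) ≤ x ∧ x ^ (3 : ℝ) ≤ Real.exp (1 * x ^ δ) ∧
    (3 * c₂ * Q) * x ^ δ ≤ x ^ (1 / 2 : ℝ) ∧ x ^ (3 : ℝ) ≤ Real.exp (1 / 8 * x ^ (1 : ℝ)) := by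
  have h1 := ev_pow (C₁ * 36 / δ) (show 3 * δ / 2 < 2 * δ by linarith)
  have h2 := ev_pow (128 / κ₀) (show 2 * δ < 1 by linarith)
  have h3 := ev_pow 4000 (show 1 / 2 + δ < 1 by linarith)
  have h4 := ev_exp 3 hδ (show (0 : ℝ) < 1 by norm_num)
  have h5 := (tendsto_rpow_atTop hδ).eventually_ge_atTop 6
  have h6 := (tendsto_rpow_atTop hδ).eventually_ge_atTop Q
  have h7 := ev_pow (3 * c₂ * Q) (show δ < 1 / 2 by linarith)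
  have h9 := ev_exp 3 (show (0 : ℝ) < 1 by norm_num) (show (0 : ℝ) < 1 / 8 by norm_num)
  filter_upwards [h1, h2, h3, h4, h5, h6, h7, h9, eventually_ge_atTop (1000 : ℝ)] with x a1 a2 a3 a4 a5 a6 a7 a9 a10
  rw [Real.rpow_one] at a2 a3
  exact ⟨a10, a5, a6, a1, a2, a3, a4, a7, a9⟩

end Pool.Agent.H620.Rel
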