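import Pool.Agent.H620.Rel.Param

/-! The structure at one scale. -/

set_option autoImplicit false

namespace Pool.Agent.H620.Rel

open Finset Filter Topology
open Pool.Agent.TH930.EBQ (ones wd words cw T sum_wd)
open Pool.Agent.H499R2.CO (Tz q)
open Pool.Agent.H620.Inf (ind ind_nonneg ind_le_one ind_true ind_false ind_mono ind_or ne'_eq_ind ne' In TI exists_window
  sum_split ev_pow ev_exp log_le_pow log2_bd log3_bd ceil_bd kappa_num count_class)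
open Pool.Agent.H620.Inf2 (Sg aw cv pt typ_num)

theorem two_mul_le_pow (n : ℕ) : 2 * n ≤ 2 ^ n ∨ n = 1 ∨ n = 0 := by
  rcases n with _ | n
  · right; right; rfl
  · left
    have : n < 2 ^ n := Nat.lt_two_pow_self
    rw [pow_succ]
    omega

theorem str_k {σ : ℤ} (hσ : Sg σ) {δ κ₀ C₀ C₁ c₂ : ℝ} {B : ℕ} (hδ : 0 < δ) (hδ1 : δ ≤ 1 / 16) (hκ₀ : 0 < κ₀)
    (hC₀ : 0 < C₀) (hC₁ : 0 < C₁) (hc₂ : 0 < c₂) (hB : 3 ≤ δ * B)
    (hcoal : ∀ μ b : ℕ, 1 ≤ b → C₁ * ((μ : ℝ) + 4) * Real.log (b + 1) ≤ b →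
      ∀ i ≤ 1, ∀ r : ℤ, |r| ≤ 3 ^ (μ + 1) → q Pool.Agent.H499R2.CO.step (0, 0) b (i, r) ≤ 1 / 2)
    (htyp : ∀ q J D : ℕ, 0 < q → 1 ≤ J → 0 < D → ∀ p : ℝ, 0 < p →
    ((D : ℝ) + 1) * p + J / (D : ℝ) ^ 2 + q * (c₂ / Real.sqrt J) < 1 →
    ∃ o₀ o₁ : ℕ, q ∣ o₀ ∧ o₀ ≤ o₁ ∧ J ≤ 2 * o₀ + D ∧ 2 * o₀ ≤ J + (D + 2 * q) ∧
      (∀ o ∈ Icc o₀ o₁, p * 2 ^ J ≤ (((words J).filter (fun v => ones v = o)).card : ℝ)) ∧
      ∑ v ∈ words J, ind (¬ (o₀ ≤ ones v ∧ ones v ≤ o₁)) ≤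
        2 ^ J * (((D : ℝ) + 1) * p + J / (D : ℝ) ^ 2 + q * (c₂ / Real.sqrt J)))
    (hscale : ∀ (P : ℕ → Prop) (V : ℕ → ℕ → ℤ → Prop),
    ∀ J b u μ : ℕ, 1 ≤ J → 1 ≤ μ → (μ : ℝ) ^ 2 ≤ κ₀ * J →
    (∀ U, ∀ L < 2 ^ J, (P (2 ^ J * U + L) ↔ V U (aw σ J L) (cv σ J L))) →
    (∀ par, ∀ L < 2 ^ J, ∀ L' < 2 ^ J, pt σ μ par J L = pt σ μ par J L' →
      ∃ G ⊆ range (2 ^ b), (2 : ℝ) ^ b ≤ 2 * G.card ∧ ∀ M ∈ G, ∀ U,
        (P (2 ^ J * (2 ^ b * U + M) + L) ↔ P (2 ^ J * (2 ^ b * U + M) + L'))) →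
    ∀ o₀ o₁ : ℕ, μ ≤ o₀ → o₀ ≤ o₁ → ∀ p : ℝ, 0 < p →
    (∀ o ∈ Icc o₀ o₁, p * 2 ^ J ≤ (((words J).filter (fun v => ones v = o)).card : ℝ)) →
    ∀ M : ℝ, 4 * ∑ j ∈ Ico J (J + b), In P (J + b + u) j +
      2 ^ (J + b + u) * (C₀ * J ^ 2 / (μ : ℝ) ^ B) ≤ M →
    ∃ (Y : ℕ → Prop) (r : ℕ), r < 3 ^ μ ∧
      (∀ m : ℕ, (m : ℝ) ^ 2 ≤ κ₀ * J → (3 : ℝ) ^ m ≤ 2 ^ (b + u) → ∀ (r₀ : ℤ) (G : ℕ), 1 ≤ G →
        ∑ n ∈ range (2 ^ (J + b + u)), ind ((3 : ℤ) ^ m ∣ (n : ℤ) - r₀ ∧ ¬ (P n ↔ Y (3 ^ (o₀ - μ) * n / 2 ^ J))) ≤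
          2 ^ (J + b + u) / 3 ^ m * ((1 + 4 / p) * (M / 2 ^ (J + b + u)) + C₀ * J ^ 2 / (μ : ℝ) ^ B +
            2 * ((∑ L ∈ range (2 ^ J), ind (¬ (o₀ ≤ aw σ J L ∧ aw σ J L ≤ o₁))) / 2 ^ J + J / (4 * G) +
              2 * (G / 3 ^ μ) + 2 / 2 ^ J))) ∧
      ∑ U ∈ range (2 ^ (b + u)), ∑ q ∈ range (3 ^ (o₀ - μ)),
        ind (¬ (V U o₀ (3 ^ μ * (q : ℤ) + r) ↔ Y (3 ^ (o₀ - μ) * U + q))) ≤
        3 ^ (o₀ - μ) * (M / (p * 2 ^ J)))
    {D : ℕ} (hD : D % 2 = 1) {S : Set ℤ} (hS : ∀ x, x ∈ S ↔ T (σ * D) x ∈ S) {ra : ℕ} (hra : ra < D)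
    {Q : ℕ} (hQ : 0 < Q) (hQ2 : (2 : ℕ) ^ Q % D = 1 % D) (hQ3 : (3 : ℕ) ^ Q % D = 1 % D)
    {k : ℕ} (x1 : 1000 ≤ (k : ℝ)) (x2 : 6 ≤ (k : ℝ) ^ δ) (xQ : (Q : ℝ) ≤ (k : ℝ) ^ δ)
    (x3 : (C₁ * 36 / δ) * (k : ℝ) ^ (3 * δ / 2) ≤ (k : ℝ) ^ (2 * δ)) (x4 : (128 / κ₀) * (k : ℝ) ^ (2 * δ) ≤ k)
    (x5 : 4000 * (k : ℝ) ^ (1 / 2 + δ) ≤ k) (x6 : (k : ℝ) ^ (3 : ℝ) ≤ Real.exp (1 * (k : ℝ) ^ δ))
    (x8 : (3 * c₂ * Q) * (k : ℝ) ^ δ ≤ (k : ℝ) ^ (1 / 2 : ℝ))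
    (x9 : (k : ℝ) ^ (3 : ℝ) ≤ Real.exp (1 / 8 * (k : ℝ) ^ (1 : ℝ)))
    (hTI : TI (fun n : ℕ => (D * (n : ℤ) + ra) ∈ S) (k + 1) ≤ 2 ^ k * (k : ℝ) ^ (1 / 2 - 11 * δ)) :
    Str' (fun n : ℕ => (D * (n : ℤ) + ra) ∈ S) (50 * C₀ + 20000) δ k := by
  set x : ℝ := (k : ℝ) with hx
  have hx0 : 0 < x := by linarith
  have hQ1 : 1 ≤ Q := hQ
  have hQr : (1 : ℝ) ≤ Q := by exact_mod_cast hQ1
  have hDz : (D : ℤ) % 2 = 1 := by omega
  -- `μ`
  obtain ⟨m1, m2⟩ := ceil_bd (show 1 ≤ x ^ δ by linarith)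
  set μ := ⌈x ^ δ⌉₊ with hμ
  have hμ1 : 1 ≤ μ := by
    have : (1 : ℝ) ≤ μ := by linarith
    exact_mod_cast this
  clear_value μ
  -- `b`
  have hb0 : 1 ≤ x ^ (2 * δ) := Real.one_le_rpow (by linarith) (by linarith)
  obtain ⟨b1', b2'⟩ := ceil_bd hb0
  set b := Q * ⌈x ^ (2 * δ)⌉₊ with hb
  have b1 : x ^ (2 * δ) ≤ (b : ℝ) := by
    rw [hb]; push_cast
    calc x ^ (2 * δ) ≤ 1 * (⌈x ^ (2 * δ)⌉₊ : ℝ) := by rw [one_mul]; exact b1'
      _ ≤ Q * (⌈x ^ (2 * δ)⌉₊ : ℝ) := by gcongr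
  have b2 : (b : ℝ) ≤ 2 * x ^ (3 * δ) := by
    rw [hb]; push_cast
    calc (Q : ℝ) * (⌈x ^ (2 * δ)⌉₊ : ℝ) ≤ x ^ δ * (2 * x ^ (2 * δ)) := by gcongr
      _ = 2 * (x ^ δ * x ^ (2 * δ)) := by ring
      _ = 2 * x ^ (3 * δ) := by rw [← Real.rpow_add hx0]; congr 2; ring
  have hb1 : 1 ≤ b := by
    have : (1 : ℝ) ≤ b := by linarith
    exact_mod_cast this
  have hQb : Q ∣ b := Dvd.intro _ rfl
  clear_value b
  have hb3δ : x ^ (3 * δ) ≤ x ^ (1 / 2 + δ) := Real.rpow_le_rpow_of_exponent_le (by linarith) (by linarith)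
  have hxδ2 : x ^ δ ≤ x ^ (1 / 2 + δ) := Real.rpow_le_rpow_of_exponent_le (by linarith) (by linarith)
  have hbx : 2000 * (b : ℝ) ≤ x := by linarith
  have hbk : 2000 * b ≤ k := by
    have hbx' : 2000 * (b : ℝ) ≤ (k : ℝ) := hbx
    exact_mod_cast hbx'
  have hQx : 4000 * (Q : ℝ) ≤ x := by linarith
  have hQk : 4000 * Q ≤ k := by
    have hbx' : 4000 * (Q : ℝ) ≤ (k : ℝ) := hQx
    exact_mod_cast hbx'
  have hk16 : 1000 ≤ k := by
    have x1' : (1000 : ℝ) ≤ (k : ℝ) := x1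
    exact_mod_cast x1'
  have hq : ∀ i ≤ 1, ∀ r : ℤ, |r| ≤ 3 ^ (μ + 1) → q Pool.Agent.H499R2.CO.step (0, 0) b (i, r) ≤ 1 / 2 := by
    apply hcoal μ b hb1
    have g1 : (μ : ℝ) + 4 ≤ 6 * x ^ δ := by linarith
    have g2 : Real.log (b + 1) ≤ 6 / δ * x ^ (δ / 2) := by
      have g3 : Real.log ((b : ℝ) + 1) ≤ Real.log (3 * x) := by
        apply Real.log_le_log (by positivity)
        linarith
      refine g3.trans ((log_le_pow (show 0 < δ / 2 by linarith) (by positivity)).trans ?_)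
      rw [Real.mul_rpow (by norm_num) hx0.le]
      have g4 : (3 : ℝ) ^ (δ / 2) ≤ 3 := by
        calc (3 : ℝ) ^ (δ / 2) ≤ 3 ^ (1 : ℝ) := Real.rpow_le_rpow_of_exponent_le (by norm_num) (by linarith)
          _ = 3 := Real.rpow_one 3
      have g5 : 0 < x ^ (δ / 2) := Real.rpow_pos_of_pos hx0 _
      calc 3 ^ (δ / 2) * x ^ (δ / 2) / (δ / 2) ≤ 3 * x ^ (δ / 2) / (δ / 2) := by gcongr
        _ = 6 / δ * x ^ (δ / 2) := by field_simp; ring
    have g6 : 0 ≤ Real.log ((b : ℝ) + 1) := Real.log_nonneg (by linarith)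
    calc C₁ * ((μ : ℝ) + 4) * Real.log (b + 1) ≤ C₁ * (6 * x ^ δ) * (6 / δ * x ^ (δ / 2)) := by gcongr
      _ = C₁ * 36 / δ * (x ^ δ * x ^ (δ / 2)) := by ring
      _ = C₁ * 36 / δ * x ^ (3 * δ / 2) := by rw [← Real.rpow_add hx0]; congr 2; ring
      _ ≤ x ^ (2 * δ) := x3
      _ ≤ b := b1
  -- the window
  set W := k / (32 * b) with hW
  have hW0 : 0 < W := Nat.div_pos (by omega) (by omega)
  have hWb : W * (32 * b) ≤ k := Nat.div_mul_le_self _ _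
  have hWb' : 16 * (W * (2 * b)) ≤ k := by
    have : W * (32 * b) = 16 * (W * (2 * b)) := by ring
    omega
  have hW2 : k < W * (32 * b) + 32 * b := Nat.lt_div_mul_add (by omega)
  clear_value W
  have hW3 : (k : ℝ) ≤ W * (64 * b) := by
    have h1 : W * (32 * b) + 32 * b ≤ W * (64 * b) := by
      have g1 : 32 * b ≤ W * (32 * b) := Nat.le_mul_of_pos_left _ hW0
      have g2 : W * (64 * b) = W * (32 * b) + W * (32 * b) := by ring
      omega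
    have h2 : k ≤ W * (64 * b) := by omega
    exact_mod_cast h2
  set J₀ := Q * (k / (8 * Q) + 1) with hJ₀
  have hJ₀a : k < 8 * J₀ ∧ 8 * J₀ ≤ k + 8 * Q := by
    have g1 := Nat.div_add_mod k (8 * Q)
    have g2 := Nat.mod_lt k (show 8 * Q > 0 by omega)
    have g3 : 8 * J₀ = 8 * Q * (k / (8 * Q)) + 8 * Q := by rw [hJ₀]; ring
    omega
  have hQJ₀ : Q ∣ J₀ := Dvd.intro _ rfl
  clear_value J₀
  set R : ℕ → Prop := fun n : ℕ => (D * (n : ℤ) + ra) ∈ S with hR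
  obtain ⟨i, hi, hwin⟩ := window_shift R (k := k) (J₀ := J₀) (b := b) hW0 (by omega)
  set J := J₀ + i * (2 * b) with hJ
  have hJQ : Q ∣ J := by
    rw [hJ]
    exact dvd_add hQJ₀ (Dvd.dvd.mul_left (Dvd.dvd.mul_left hQb _) _)
  clear_value J
  have hib : i * (2 * b) + 2 * b ≤ W * (2 * b) := by
    calc i * (2 * b) + 2 * b = (i + 1) * (2 * b) := by ring
      _ ≤ W * (2 * b) := Nat.mul_le_mul_right _ hi
  have hJ1 : 1 ≤ J := by omega
  have hJ8 : k ≤ 8 * J := by omega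
  have hJ4 : 4 * J ≤ k := by omega
  have hJbk : J + b ≤ k := by omega
  have hJ8r : x ≤ 8 * (J : ℝ) := by rw [hx]; exact_mod_cast hJ8
  have hJ4r : 4 * (J : ℝ) ≤ x := by rw [hx]; exact_mod_cast hJ4
  obtain ⟨u, hu⟩ : ∃ u, J + b + u = k := ⟨k - (J + b), by omega⟩
  have hbu : b + u = k - J := by omega
  have huk : k ≤ 2 * u := by omega
  -- squares
  have hsq : ∀ m : ℕ, (m : ℝ) ≤ 4 * x ^ δ → (m : ℝ) ^ 2 ≤ κ₀ * J := by
    intro m hm
    have h1 : (m : ℝ) ^ 2 ≤ 16 * x ^ (2 * δ) := by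
      have e : x ^ (2 * δ) = x ^ δ * x ^ δ := by rw [← Real.rpow_add hx0]; congr 1; ring
      rw [e]
      calc (m : ℝ) ^ 2 ≤ (4 * x ^ δ) ^ 2 := pow_le_pow_left₀ (Nat.cast_nonneg m) hm 2
        _ = 16 * (x ^ δ * x ^ δ) := by ring
    have h2 : 128 * x ^ (2 * δ) ≤ κ₀ * x := by
      rw [div_mul_eq_mul_div, div_le_iff₀ hκ₀] at x4
      linarith
    have h3 := mul_le_mul_of_nonneg_left hJ8r hκ₀.le
    linarith
  have hμJ : (μ : ℝ) ^ 2 ≤ κ₀ * J := hsq μ (by linarith)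
  -- the levels
  obtain ⟨t1, t2⟩ := typ_num (J := J) hδ hc₂ (show (0 : ℝ) < Q by linarith) x1 x2 x8 hJ4r hJ8r
  have hD1 : 1 ≤ x ^ (1 / 2 + δ) := Real.one_le_rpow (by linarith) (by linarith)
  obtain ⟨d1, d2⟩ := ceil_bd hD1
  set E := ⌈x ^ (1 / 2 + δ)⌉₊ with hE
  clear_value E
  set p := x ^ (-(1 / 2) - 2 * δ) with hp
  have hp0 : 0 < p := Real.rpow_pos_of_pos hx0 _
  clear_value p
  have hEpos : 0 < E := by
    have : (0 : ℝ) < E := by linarith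
    exact_mod_cast this
  obtain ⟨o₀, o₁, hoQ, ho, ho1, ho2, hty, hout⟩ := htyp Q J E hQ hJ1 hEpos p hp0 (by linarith)
  have ho1r : (J : ℝ) ≤ 2 * o₀ + E := by exact_mod_cast ho1
  have ho2r : 2 * (o₀ : ℝ) ≤ J + ((E + 2 * Q : ℕ) : ℝ) := by exact_mod_cast ho2
  have hEx : 500 * ((E + 2 * Q : ℕ) : ℝ) ≤ x := by push_cast; linarith
  have hμo : μ ≤ o₀ := by
    have h1 : (μ : ℝ) ≤ o₀ := by linarith
    exact_mod_cast h1
  have hκ := kappa_num hJ8r hEx hx0 ho2r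
  have hle32 : 3 ^ o₀ ≤ 2 ^ J := by
    have h1 : (3 : ℝ) ^ o₀ / 2 ^ J ≤ 1 := hκ.trans (Real.exp_le_one_iff.2 (by linarith))
    rw [div_le_one (by positivity)] at h1
    exact_mod_cast h1
  -- the shift
  obtain ⟨f, f', ρ, hf1, hf2, hf3, hf4, hf5⟩ := exists_shift hD hra (b := b) hQ2 hQ3 hJQ hoQ hle32
  -- powers
  set y := x ^ (-δ) with hy
  have hy0 : 0 < y := Real.rpow_pos_of_pos hx0 _
  have hxi : x⁻¹ ≤ y := by
    rw [← Real.rpow_neg_one]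
    exact Real.rpow_le_rpow_of_exponent_le (by linarith) (by linarith)
  clear_value y
  have h2k : (0 : ℝ) < 2 ^ k := by positivity
  -- `M`
  have hMB : C₀ * (J : ℝ) ^ 2 / (μ : ℝ) ^ B ≤ C₀ * x⁻¹ := by
    have h1 : x ^ (3 : ℝ) ≤ (μ : ℝ) ^ B := by
      calc x ^ (3 : ℝ) ≤ x ^ (δ * B) := Real.rpow_le_rpow_of_exponent_le (by linarith) hB
        _ = (x ^ δ) ^ B := by rw [Real.rpow_mul hx0.le, Real.rpow_natCast]
        _ ≤ (μ : ℝ) ^ B := pow_le_pow_left₀ (by positivity) m1 B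
    have h2 : x ^ (3 : ℝ) = x ^ 3 := by norm_cast
    rw [h2] at h1
    have h3 : (0 : ℝ) < x ^ 3 := by positivity
    calc C₀ * (J : ℝ) ^ 2 / (μ : ℝ) ^ B ≤ C₀ * x ^ 2 / x ^ 3 := by
          gcongr
          have : (0 : ℝ) ≤ J := Nat.cast_nonneg J
          linarith
      _ = C₀ * x⁻¹ := by field_simp
  set z := x ^ (-(1 / 2) - 5 * δ) with hz
  have hz1 : x⁻¹ ≤ z := by
    rw [← Real.rpow_neg_one]
    exact Real.rpow_le_rpow_of_exponent_le (by linarith) (by linarith)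
  have hz0 : 0 < z := Real.rpow_pos_of_pos hx0 _
  clear_value z
  have hx3 : x ^ (3 : ℝ) = x ^ 3 := by norm_cast
  -- the translate
  set P : ℕ → Prop := fun n => R (n + f) with hP
  have hfk : f ≤ 2 ^ k := hf1.le.trans (Nat.pow_le_pow_right (by norm_num) hJbk)
  have hwinP : ∑ j ∈ Ico J (J + b), In P k j ≤ 2 ^ k * (513 * z) := by
    refine (hwin f hfk).trans ?_
    have hWr : (0 : ℝ) < W := by exact_mod_cast hW0
    have hbr : (0 : ℝ) < b := by linarith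
    have h1 : 2 * (b : ℝ) * (TI R (k + 1) / W) ≤ 2 ^ k * (512 * z) := by
      have g1 : TI R (k + 1) / W ≤ (2 ^ k * x ^ (1 / 2 - 11 * δ)) * (64 * b / x) := by
        rw [div_le_iff₀ hWr]
        have g2 : 1 ≤ (64 * b / x) * W := by
          rw [div_mul_eq_mul_div, le_div_iff₀ hx0]
          linarith
        have g3 : 0 ≤ 2 ^ k * x ^ (1 / 2 - 11 * δ) := by positivity
        calc TI R (k + 1) ≤ (2 ^ k * x ^ (1 / 2 - 11 * δ)) * 1 := by rw [mul_one]; exact hTI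
          _ ≤ (2 ^ k * x ^ (1 / 2 - 11 * δ)) * ((64 * b / x) * W) := by gcongr
          _ = _ := by ring
      calc 2 * (b : ℝ) * (TI R (k + 1) / W) ≤ 2 * b * ((2 ^ k * x ^ (1 / 2 - 11 * δ)) * (64 * b / x)) := by gcongr
        _ = 2 ^ k * (128 * (b * b) * (x ^ (1 / 2 - 11 * δ) * x⁻¹)) := by field_simp; ring
        _ ≤ 2 ^ k * (128 * ((2 * x ^ (3 * δ)) * (2 * x ^ (3 * δ))) * (x ^ (1 / 2 - 11 * δ) * x⁻¹)) := by
            gcongr
        _ = 2 ^ k * (512 * (x ^ (3 * δ) * x ^ (3 * δ) * (x ^ (1 / 2 - 11 * δ) * x ^ (-1 : ℝ)))) := by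
            rw [Real.rpow_neg_one]; ring
        _ = 2 ^ k * (512 * z) := by
            rw [← Real.rpow_add hx0, ← Real.rpow_add hx0, ← Real.rpow_add hx0, hz]
            congr 3
            ring
    have h2 : 2 * (b : ℝ) * 2 ^ (k + 1 - b) ≤ 2 ^ k * z := by
      have g1 : x ^ 3 ≤ 2 ^ b := by
        rw [← hx3]
        refine x6.trans ?_
        have e : (2 : ℝ) ^ b = Real.exp (b * Real.log 2) := by
          rw [mul_comm, Real.exp_mul, Real.exp_log (by norm_num), Real.rpow_natCast]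
        rw [e]
        apply Real.exp_le_exp.2
        have l2 := Real.log_two_gt_d9
        have g2 : 6 * x ^ δ ≤ x ^ (2 * δ) := by
          have e2 : x ^ (2 * δ) = x ^ δ * x ^ δ := by rw [← Real.rpow_add hx0]; congr 1; ring
          rw [e2]
          gcongr
        have g3 : 0 < x ^ δ := by linarith
        nlinarith
      have g2 : (2 : ℝ) ^ (k + 1 - b) * 2 ^ b = 2 * 2 ^ k := by
        rw [← pow_add, ← pow_succ']
        congr 1
        omega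
      have g3 : (2 : ℝ) ^ (k + 1 - b) * x ^ 3 ≤ 2 * 2 ^ k := by
        rw [← g2]
        gcongr
      calc 2 * (b : ℝ) * 2 ^ (k + 1 - b) = 2 * b * (2 ^ (k + 1 - b) * x ^ 3) / x ^ 3 := by field_simp
        _ ≤ 2 * (x / 4) * (2 * 2 ^ k) / x ^ 3 := by
            gcongr
            linarith
        _ = 2 ^ k * (x⁻¹ * x⁻¹) := by field_simp; ring
        _ ≤ 2 ^ k * (z * 1) := by
            gcongr
            exact inv_le_one_of_one_le₀ (by linarith)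
        _ = 2 ^ k * z := by rw [mul_one]
    rw [mul_add]
    linarith
  set M : ℝ := 2 ^ k * ((2052 + C₀) * z) with hM
  have hMle : 4 * ∑ j ∈ Ico J (J + b), In P (J + b + u) j +
      2 ^ (J + b + u) * (C₀ * J ^ 2 / (μ : ℝ) ^ B) ≤ M := by
    rw [hu]
    have h2 : 2 ^ k * (C₀ * (J : ℝ) ^ 2 / (μ : ℝ) ^ B) ≤ 2 ^ k * (C₀ * z) := by
      gcongr
      exact hMB.trans (by gcongr)
    rw [hM]
    linarith
  have hfz : (D : ℤ) * f + ra = 2 ^ J * (2 ^ b * (ρ : ℤ)) := by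
    have : ((D * f + ra : ℕ) : ℤ) = ((2 ^ (J + b) * ρ : ℕ) : ℤ) := by rw [hf2]
    push_cast at this
    rw [this, pow_add]
    ring
  have hfz' : (D : ℤ) * f' + ra = 3 ^ o₀ * (2 ^ b * (ρ : ℤ)) := by
    have : ((D * f' + ra : ℕ) : ℤ) = ((3 ^ o₀ * (2 ^ b * ρ) : ℕ) : ℤ) := by rw [hf3]
    push_cast at this
    exact this
  have hPS : ∀ n : ℕ, P n ↔ (D : ℤ) * (n : ℤ) + 2 ^ J * (2 ^ b * (ρ : ℤ)) ∈ S := by
    intro n
    rw [hP]
    show (D * ((n + f : ℕ) : ℤ) + ra) ∈ S ↔ _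
    have e : (D : ℤ) * ((n + f : ℕ) : ℤ) + ra = D * (n : ℤ) + 2 ^ J * (2 ^ b * (ρ : ℤ)) := by
      push_cast
      linear_combination hfz
    rw [e]
  obtain ⟨Y, r, hr, hS1, hS2⟩ := hscale P
    (fun U o v => (D : ℤ) * (3 ^ o * (U : ℤ) + v) + 3 ^ o * (2 ^ b * (ρ : ℤ)) ∈ S) J b u μ hJ1 hμ1 hμJ
    (fun U L hL => by rw [hPS]; exact PV hσ hDz hS J (2 ^ b * (ρ : ℤ)) U L)
    (fun par L hL L' hL' h => by
      obtain ⟨G, g1, g2, g3⟩ := coal_part hσ hDz hS hq (ρ : ℤ) h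
      refine ⟨G, g1, g2, fun M' hM' U => ?_⟩
      rw [hPS, hPS]
      have e : (2 : ℤ) ^ J * (2 ^ b * (ρ : ℤ)) = 2 ^ (J + b) * (ρ : ℤ) := by rw [pow_add]; ring
      rw [e]
      exact g3 M' hM' U)
    o₀ o₁ hμo ho p hp0 hty M hMle
  have hzp : z / p ≤ y := by
    rw [div_le_iff₀ hp0, hz, hy, hp, ← Real.rpow_add hx0]
    exact Real.rpow_le_rpow_of_exponent_le (by linarith) (by linarith)
  have hzy : z ≤ y := by
    rw [hz, hy]
    exact Real.rpow_le_rpow_of_exponent_le (by linarith) (by linarith)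
  have hyk : (k : ℝ) ^ (-δ) = y := hy.symm
  have hfk' : f * k ≤ 2 ^ k := by
    have h1 : k ≤ 2 ^ u := by
      rcases two_mul_le_pow u with h | h | h <;> omega
    calc f * k ≤ 2 ^ (J + b) * 2 ^ u := Nat.mul_le_mul hf1.le h1
      _ = 2 ^ k := by rw [← pow_add, hu]
  have hμ3 : x ^ 3 ≤ 3 ^ μ := by
    have g2 : Real.exp (1 * x ^ δ) ≤ 3 ^ μ := by
      have e : (3 : ℝ) ^ μ = Real.exp (μ * Real.log 3) := by
        rw [mul_comm, Real.exp_mul, Real.exp_log (by norm_num), Real.rpow_natCast]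
      rw [e]
      apply Real.exp_le_exp.2
      have h9 : (1 : ℝ) ≤ Real.log 3 := by linarith [log3_bd.1]
      rw [one_mul]
      exact m1.trans (le_mul_of_one_le_right (Nat.cast_nonneg μ) h9)
    rw [← hx3]
    exact x6.trans g2
  have hkμ : k ≤ 3 ^ μ := by
    have h1 : (k : ℝ) ≤ 3 ^ μ := by
      refine le_trans ?_ hμ3
      calc (k : ℝ) = x ^ 1 := (pow_one x).symm
        _ ≤ x ^ 3 := pow_le_pow_right₀ (by linarith) (by norm_num)
    exact_mod_cast h1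
  refine ⟨J, μ, o₀, f, f', r, Y, hJ8, hJ4, m2, hμo, hr, hκ, hf4, hf5, hfk', hkμ, ?_, ?_⟩
  · intro m hm r₀
    rw [hyk]
    have hm3' : (3 : ℝ) ^ m ≤ Real.exp (x / 8) := by
      have e : (3 : ℝ) ^ m = Real.exp (m * Real.log 3) := by
        rw [mul_comm, Real.exp_mul, Real.exp_log (by norm_num), Real.rpow_natCast]
      rw [e]
      apply Real.exp_le_exp.2
      obtain ⟨l1, l2⟩ := log3_bd
      have h1 : (m : ℝ) ≤ x / 1000 := by linarith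
      calc (m : ℝ) * Real.log 3 ≤ (x / 1000) * 2 := mul_le_mul h1 (by linarith) (by linarith) (by linarith)
        _ ≤ x / 8 := by linarith
    have hm3 : (3 : ℝ) ^ m ≤ 2 ^ (b + u) := by
      have h1 : (3 : ℝ) ^ m ≤ 4 ^ m := pow_le_pow_left₀ (by norm_num) (by norm_num) _
      have h2 : (4 : ℝ) ^ m = 2 ^ (2 * m) := by rw [pow_mul]; norm_num
      rw [h2] at h1
      refine h1.trans (pow_le_pow_right₀ (by norm_num) ?_)
      have h3 : 2 * (m : ℝ) + J ≤ (k : ℝ) := by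
        have : 2 * (m : ℝ) + J ≤ x := by linarith
        exact this
      have h4 : 2 * m + J ≤ k := by exact_mod_cast h3
      omega
    have h1 := hS1 m (hsq m hm) hm3 (r₀ - f) (k ^ 2) (Nat.one_le_pow _ _ (by omega))
    rw [hu] at h1
    -- from `P` to `R`
    have hconv : ∑ n ∈ range (2 ^ k), ind ((3 : ℤ) ^ m ∣ (n : ℤ) - r₀ ∧ ¬ (R n ↔ Y (3 ^ (o₀ - μ) * (n - f) / 2 ^ J))) ≤
        ∑ n ∈ range (2 ^ k), ind ((3 : ℤ) ^ m ∣ (n : ℤ) - (r₀ - f) ∧ ¬ (P n ↔ Y (3 ^ (o₀ - μ) * n / 2 ^ J))) +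
          2 ^ k / 3 ^ m * (4 * y) := by
      have e : 2 ^ k = f + (2 ^ k - f) := by omega
      have g1 : ∑ n ∈ range (2 ^ k), ind ((3 : ℤ) ^ m ∣ (n : ℤ) - r₀ ∧ ¬ (R n ↔ Y (3 ^ (o₀ - μ) * (n - f) / 2 ^ J))) =
          ∑ n ∈ range f, ind ((3 : ℤ) ^ m ∣ (n : ℤ) - r₀ ∧ ¬ (R n ↔ Y (3 ^ (o₀ - μ) * (n - f) / 2 ^ J))) +
          ∑ n ∈ range (2 ^ k - f), ind ((3 : ℤ) ^ m ∣ ((f + n : ℕ) : ℤ) - r₀ ∧
            ¬ (R (f + n) ↔ Y (3 ^ (o₀ - μ) * (f + n - f) / 2 ^ J))) := by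
        rw [e, sum_range_add]
        congr 2
        rw [Nat.add_sub_cancel_left]
      rw [g1, add_comm]
      apply add_le_add
      · refine le_trans (le_of_eq ?_) (sum_le_sum_of_subset_of_nonneg (range_subset_range.2 (Nat.sub_le (2 ^ k) f))
          fun _ _ _ => ind_nonneg _)
        apply sum_congr rfl
        intro n _
        have e1 : ((f + n : ℕ) : ℤ) - r₀ = (n : ℤ) - (r₀ - f) := by push_cast; ring
        have e2 : f + n - f = n := by omega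
        rw [e1, e2, add_comm f n]
      · have g2 : ∑ n ∈ range f, ind ((3 : ℤ) ^ m ∣ (n : ℤ) - r₀ ∧ ¬ (R n ↔ Y (3 ^ (o₀ - μ) * (n - f) / 2 ^ J))) ≤
            2 ^ (J + b) / 3 ^ m + 1 := by
          refine le_trans ?_ (count_class 0 m (J + b) 0 r₀)
          refine (sum_le_sum_of_subset_of_nonneg (range_subset_range.2 hf1.le) fun _ _ _ => ind_nonneg _).trans ?_
          apply sum_le_sum
          intro n _
          apply ind_mono
          intro h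
          rw [pow_zero, one_mul, add_zero]
          exact h.1
        refine g2.trans ?_
        have hxp : x ^ 3 ≤ Real.exp (x / 8) := by
          rw [← hx3]
          refine x9.trans (le_of_eq ?_)
          rw [Real.rpow_one]
          ring_nf
        have hx1x : x ≤ x ^ 3 := by
          calc x = x ^ 1 := (pow_one x).symm
            _ ≤ x ^ 3 := pow_le_pow_right₀ (by linarith) (by norm_num)
        have hu4 : Real.exp (x / 4) ≤ 2 ^ u := by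
          have e : (2 : ℝ) ^ u = Real.exp (u * Real.log 2) := by
            rw [mul_comm, Real.exp_mul, Real.exp_log (by norm_num), Real.rpow_natCast]
          rw [e]
          apply Real.exp_le_exp.2
          have h2 : x ≤ 2 * (u : ℝ) := by rw [hx]; exact_mod_cast huk
          have l2 := Real.log_two_gt_d9
          calc x / 4 ≤ u * (1 / 2) := by linarith
            _ ≤ u * Real.log 2 := mul_le_mul_of_nonneg_left (by linarith) (Nat.cast_nonneg u)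
        have h2ku : (2 : ℝ) ^ k = 2 ^ (J + b) * 2 ^ u := by rw [← pow_add, hu]
        have g3 : (2 : ℝ) ^ (J + b) / 3 ^ m ≤ 2 ^ k / 3 ^ m * y := by
          rw [h2ku, div_mul_eq_mul_div]
          apply div_le_div_of_nonneg_right _ (by positivity)
          calc (2 : ℝ) ^ (J + b) = 2 ^ (J + b) * (x * x⁻¹) := by rw [mul_inv_cancel₀ hx0.ne', mul_one]
            _ ≤ 2 ^ (J + b) * (2 ^ u * y) := by
                gcongr
                refine le_trans ?_ hu4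
                refine (hx1x.trans hxp).trans (Real.exp_le_exp.2 (by linarith))
            _ = 2 ^ (J + b) * 2 ^ u * y := by ring
        have g4 : (1 : ℝ) ≤ 2 ^ k / 3 ^ m * y := by
          have g5 : x * 3 ^ m ≤ 2 ^ k := by
            rw [h2ku]
            calc x * 3 ^ m ≤ Real.exp (x / 8) * Real.exp (x / 8) := by
                  gcongr
                  exact hx1x.trans hxp
              _ = Real.exp (x / 4) := by rw [← Real.exp_add]; ring_nf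
              _ ≤ 2 ^ u := hu4
              _ = 1 * 2 ^ u := (one_mul _).symm
              _ ≤ 2 ^ (J + b) * 2 ^ u := by
                  gcongr
                  exact one_le_pow₀ (by norm_num)
          calc (1 : ℝ) = (x * 3 ^ m) / 3 ^ m * x⁻¹ := by field_simp
            _ ≤ 2 ^ k / 3 ^ m * y := by gcongr
        linarith
    refine hconv.trans ?_
    refine (add_le_add_left h1 _).trans ?_
    rw [← mul_add]
    apply mul_le_mul_of_nonneg_left _ (by positivity)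
    have e1 : M / 2 ^ k = (2052 + C₀) * z := by rw [hM]; field_simp
    rw [e1]
    have h2 : (1 + 4 / p) * ((2052 + C₀) * z) ≤ 5 * (2052 + C₀) * y := by
      have e2 : (1 + 4 / p) * ((2052 + C₀) * z) = (2052 + C₀) * (z + 4 * (z / p)) := by ring
      rw [e2]
      have : (2052 + C₀) * (z + 4 * (z / p)) ≤ (2052 + C₀) * (y + 4 * y) := by gcongr
      linarith
    have h3 : (∑ L ∈ range (2 ^ J), ind (¬ (o₀ ≤ aw σ J L ∧ aw σ J L ≤ o₁))) / 2 ^ J ≤ 5 * y := by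
      rw [div_le_iff₀ (by positivity)]
      have e3 : ∑ L ∈ range (2 ^ J), ind (¬ (o₀ ≤ aw σ J L ∧ aw σ J L ≤ o₁)) =
          ∑ v ∈ words J, ind (¬ (o₀ ≤ ones v ∧ ones v ≤ o₁)) :=
        sum_wd hσ.odd J (fun v => ind (¬ (o₀ ≤ ones v ∧ ones v ≤ o₁)))
      rw [e3]
      refine hout.trans ?_
      rw [mul_comm]
      gcongr
    have h4 : (J : ℝ) / (4 * ((k ^ 2 : ℕ) : ℝ)) ≤ y := by
      push_cast
      rw [← hx]
      calc (J : ℝ) / (4 * x ^ 2) ≤ x / (4 * x ^ 2) := by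
            gcongr
            have : (0 : ℝ) ≤ J := Nat.cast_nonneg J
            linarith
        _ = x⁻¹ / 4 := by field_simp
        _ ≤ y := by linarith
    have h5 : ((k ^ 2 : ℕ) : ℝ) / 3 ^ μ ≤ y := by
      push_cast
      rw [← hx]
      have g1 : x ^ 3 ≤ 3 ^ μ := by
        have g2 : Real.exp (1 * x ^ δ) ≤ 3 ^ μ := by
          have e : (3 : ℝ) ^ μ = Real.exp (μ * Real.log 3) := by
            rw [mul_comm, Real.exp_mul, Real.exp_log (by norm_num), Real.rpow_natCast]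
          rw [e]
          apply Real.exp_le_exp.2
          have h9 : (1 : ℝ) ≤ Real.log 3 := by linarith [log3_bd.1]
          rw [one_mul]
          exact m1.trans (le_mul_of_one_le_right (Nat.cast_nonneg μ) h9)
        rw [← hx3]
        exact x6.trans g2
      calc x ^ 2 / 3 ^ μ ≤ x ^ 2 / x ^ 3 := by gcongr
        _ = x⁻¹ := by field_simp
        _ ≤ y := hxi
    have h6 : (2 : ℝ) / 2 ^ J ≤ 16 * y := by
      have g1 : (J : ℝ) ≤ 2 ^ J := by exact_mod_cast Nat.lt_two_pow_self.le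
      calc (2 : ℝ) / 2 ^ J ≤ 2 / (x / 8) := by
            apply div_le_div_of_nonneg_left (by norm_num) (by positivity)
            linarith
        _ = 16 * x⁻¹ := by field_simp; norm_num
        _ ≤ 16 * y := by linarith
    have h7 : C₀ * (J : ℝ) ^ 2 / (μ : ℝ) ^ B ≤ C₀ * y := hMB.trans (by gcongr)
    have h8 : 0 < C₀ * y := by positivity
    have e5 : (50 * C₀ + 20000) * y = 50 * (C₀ * y) + 20000 * y := by ring
    have e6 : 5 * (2052 + C₀) * y = 10260 * y + 5 * (C₀ * y) := by ring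
    rw [e5]
    rw [e6] at h2
    linarith
  · rw [hyk, ← hbu, sum_split]
    -- from `V` to `R`
    have hphase : ∀ (U q : ℕ), ((D : ℤ) * (3 ^ o₀ * (U : ℤ) + (3 ^ μ * (q : ℤ) + r)) + 3 ^ o₀ * (2 ^ b * (ρ : ℤ)) ∈ S ↔
        R (3 ^ μ * (3 ^ (o₀ - μ) * U + q) + (r + f'))) := by
      intro U q
      show _ ↔ (D * ((3 ^ μ * (3 ^ (o₀ - μ) * U + q) + (r + f') : ℕ) : ℤ) + ra) ∈ S
      have e2 : (D : ℤ) * (3 ^ o₀ * (U : ℤ) + (3 ^ μ * (q : ℤ) + r)) + 3 ^ o₀ * (2 ^ b * (ρ : ℤ)) =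
          D * ((3 ^ μ * (3 ^ (o₀ - μ) * U + q) + (r + f') : ℕ) : ℤ) + ra := by
        have : (3 : ℤ) ^ o₀ = 3 ^ μ * 3 ^ (o₀ - μ) := by rw [← pow_add]; congr 1; omega
        rw [← hfz', this]
        push_cast
        ring
      rw [e2]
    have e7 : ∑ U ∈ range (2 ^ (b + u)), ∑ q ∈ range (3 ^ (o₀ - μ)),
        ind (¬ (R (3 ^ μ * (3 ^ (o₀ - μ) * U + q) + (r + f')) ↔ Y (3 ^ (o₀ - μ) * U + q))) =
        ∑ U ∈ range (2 ^ (b + u)), ∑ q ∈ range (3 ^ (o₀ - μ)),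
          ind (¬ (((D : ℤ) * (3 ^ o₀ * (U : ℤ) + (3 ^ μ * (q : ℤ) + r)) + 3 ^ o₀ * (2 ^ b * (ρ : ℤ)) ∈ S) ↔
            Y (3 ^ (o₀ - μ) * U + q))) := by
      apply sum_congr rfl
      intro U _
      apply sum_congr rfl
      intro q _
      rw [hphase]
    rw [e7]
    refine hS2.trans ?_
    have h2J : (0 : ℝ) < 2 ^ J := by positivity
    have e1 : M / (p * 2 ^ J) = 2 ^ (b + u) * ((2052 + C₀) * (z / p)) := by
      have : (2 : ℝ) ^ k = 2 ^ J * 2 ^ (b + u) := by rw [← pow_add]; congr 1; omega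
      rw [hM, this]
      field_simp
    rw [e1]
    have h1 : (2052 + C₀) * (z / p) ≤ (2052 + C₀) * y := by gcongr
    calc 3 ^ (o₀ - μ) * (2 ^ (b + u) * ((2052 + C₀) * (z / p)))
        ≤ 3 ^ (o₀ - μ) * (2 ^ (b + u) * ((2052 + C₀) * y)) := by gcongr
      _ = 3 ^ (o₀ - μ) * 2 ^ (b + u) * ((2052 + C₀) * y) := by ring
      _ ≤ 3 ^ (o₀ - μ) * 2 ^ (b + u) * ((50 * C₀ + 20000) * y) := by
          apply mul_le_mul_of_nonneg_left _ (by positivity)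
          exact mul_le_mul_of_nonneg_right (by linarith) hy0.le

end Pool.Agent.H620.Rel
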