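import Pool.Agent.H620.Rel.Base

/-! The number of the `x` with `Q x ≠ Q (x + 2 ^ j)` in terms of the influences, and translates. -/

set_option autoImplicit false

namespace Pool.Agent.H620.Rel

open Finset
open Pool.Agent.H620.Inf (ne' ne'_nonneg ne'_le_one ne'_comm ne'_tri ne'_congr xor_high xor_low xor_lt In In_nonneg
  sum_split TI exists_window)

/-- neighbours -/
theorem succ_le (t : ℕ) : ∀ (v : ℕ) (g : ℕ → Prop), t ≤ v →
    ∑ u ∈ range (2 ^ v), ne' (g u) (g (u + 1)) ≤ ∑ i ∈ range t, In g v i + 2 ^ (v - t) := by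
  induction t with
  | zero =>
    intro v g _
    rw [range_zero, sum_empty, zero_add, Nat.sub_zero]
    refine (sum_le_sum fun _ _ => ne'_le_one _ _).trans ?_
    rw [sum_const, card_range, nsmul_eq_mul, mul_one]
    push_cast
    exact le_rfl
  | succ t ih =>
    intro v g hv
    obtain ⟨w, rfl⟩ : ∃ w, v = w + 1 := ⟨v - 1, by omega⟩
    have e : 2 ^ (w + 1) = 2 * 2 ^ w := by ring
    have hx0 : ∀ q, (2 * q) ^^^ 2 ^ 0 = 2 * q + 1 := by
      intro q
      have := xor_low (J := 1) (L := 0) (i := 0) (by norm_num) (by norm_num) q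
      simpa using this
    have hx1 : ∀ q, (2 * q + 1) ^^^ 2 ^ 0 = 2 * q := by
      intro q
      have := xor_low (J := 1) (L := 1) (i := 0) (by norm_num) (by norm_num) q
      simpa using this
    have hx2 : ∀ q i, (2 * q) ^^^ 2 ^ (i + 1) = 2 * (q ^^^ 2 ^ i) := by
      intro q i
      have := xor_high (J := 1) (L := 0) (by norm_num) q i
      rw [pow_one, add_zero, add_zero] at this
      rw [add_comm i 1]
      exact this
    set h : ℕ → Prop := fun q => g (2 * q) with hh
    have h1 : ∑ u ∈ range (2 ^ (w + 1)), ne' (g u) (g (u + 1)) ≤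
        In g (w + 1) 0 + ∑ q ∈ range (2 ^ w), ne' (h q) (h (q + 1)) := by
      unfold In
      rw [e, sum_split, sum_split, ← sum_add_distrib]
      apply sum_le_sum
      intro q _
      rw [sum_range_succ, sum_range_succ, sum_range_zero, sum_range_succ, sum_range_succ, sum_range_zero, zero_add, zero_add,
        add_zero, hx0, hx1]
      have a1 := ne'_tri (g (2 * q + 1)) (g (2 * q)) (g (2 * q + 1 + 1))
      have e2 : 2 * (q + 1) = 2 * q + 1 + 1 := by ring
      have e3 : ne' (h q) (h (q + 1)) = ne' (g (2 * q)) (g (2 * q + 1 + 1)) := by simp only [hh]; rw [e2]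
      rw [e3]
      linarith
    have h2 : ∀ i, In h w i ≤ In g (w + 1) (i + 1) := by
      intro i
      unfold In
      rw [e, sum_split]
      apply sum_le_sum
      intro q _
      rw [sum_range_succ, sum_range_succ, sum_range_zero, zero_add, add_zero, hx2]
      have := ne'_nonneg (g (2 * q + 1)) (g ((2 * q + 1) ^^^ 2 ^ (i + 1)))
      simp only [hh]
      linarith
    have h3 := ih w h (by omega)
    have e4 : w + 1 - (t + 1) = w - t := by omega
    rw [sum_range_succ' (fun i => In g (w + 1) i), e4]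
    have h4 : ∑ i ∈ range t, In h w i ≤ ∑ i ∈ range t, In g (w + 1) (i + 1) := sum_le_sum fun i _ => h2 i
    linarith

theorem shift_le (Q : ℕ → Prop) {K j t : ℕ} (h : j + t ≤ K) :
    ∑ x ∈ range (2 ^ K), ne' (Q x) (Q (x + 2 ^ j)) ≤ ∑ i ∈ range t, In Q K (j + i) + 2 ^ (K - t) := by
  obtain ⟨v, rfl⟩ : ∃ v, K = j + v := ⟨K - j, by omega⟩
  have e : 2 ^ (j + v) = 2 ^ j * 2 ^ v := by ring
  rw [e, sum_split, sum_comm]
  have h1 : ∀ l ∈ range (2 ^ j), ∑ u ∈ range (2 ^ v), ne' (Q (2 ^ j * u + l)) (Q (2 ^ j * u + l + 2 ^ j)) ≤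
      ∑ i ∈ range t, In (fun u => Q (2 ^ j * u + l)) v i + 2 ^ (v - t) := by
    intro l _
    refine le_trans (le_of_eq ?_) (succ_le t v (fun u => Q (2 ^ j * u + l)) (by omega))
    apply sum_congr rfl
    intro u _
    have : 2 ^ j * u + l + 2 ^ j = 2 ^ j * (u + 1) + l := by ring
    rw [this]
  refine (sum_le_sum h1).trans ?_
  rw [sum_add_distrib, sum_const, card_range, nsmul_eq_mul, sum_comm]
  apply add_le_add
  · apply sum_le_sum
    intro i _
    apply le_of_eq
    unfold In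
    rw [e, sum_split]
    rw [sum_comm]
    apply sum_congr rfl
    intro u _
    apply sum_congr rfl
    intro l hl
    rw [mem_range] at hl
    rw [xor_high hl]
  · apply le_of_eq
    have : j + v - t = j + (v - t) := by omega
    rw [this, pow_add]
    push_cast
    rfl

theorem xor_or (n j : ℕ) : n ^^^ 2 ^ j = n + 2 ^ j ∨ n = (n ^^^ 2 ^ j) + 2 ^ j := by
  have h1 := Nat.div_add_mod n (2 ^ j)
  have h2 : n % 2 ^ j < 2 ^ j := Nat.mod_lt _ (by positivity)
  set a := n / 2 ^ j with ha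
  set L := n % 2 ^ j with hL
  have h3 := xor_high (J := j) (L := L) h2 a 0
  rw [add_zero, h1, pow_zero] at h3
  rw [h3]
  rcases Nat.even_or_odd' a with ⟨c, hc | hc⟩
  · left
    have h4 : a ^^^ 1 = a + 1 := by
      have := xor_low (J := 1) (L := 0) (i := 0) (by norm_num) (by norm_num) c
      simp only [pow_one, add_zero, pow_zero] at this
      rw [hc, this]
      norm_num
    rw [h4, ← h1]
    ring
  · right
    have h4 : a ^^^ 1 = 2 * c := by
      have := xor_low (J := 1) (L := 1) (i := 0) (by norm_num) (by norm_num) c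
      simp only [pow_one, pow_zero] at this
      rw [hc, this]
      norm_num
    rw [h4]
    have h5 : 2 ^ j * (2 * c + 1) + L = n := by rw [← hc]; exact h1
    rw [← h5]
    ring

theorem sum_xor (f : ℕ → ℝ) {k j : ℕ} (hj : j < k) :
    ∑ n ∈ range (2 ^ k), f (n ^^^ 2 ^ j) = ∑ n ∈ range (2 ^ k), f n := by
  apply sum_nbij' (fun M => M ^^^ 2 ^ j) (fun M => M ^^^ 2 ^ j)
  · intro M hM
    rw [mem_range] at hM ⊢
    exact xor_lt hM hj
  · intro M hM
    rw [mem_range] at hM ⊢
    exact xor_lt hM hj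
  · intro M _
    rw [Nat.xor_assoc, Nat.xor_self, Nat.xor_zero]
  · intro M _
    rw [Nat.xor_assoc, Nat.xor_self, Nat.xor_zero]
  · intro M _
    rfl

/-- the influences of a translate -/
theorem In_shift (Q : ℕ → Prop) {k j f : ℕ} (hj : j < k) (hf : f ≤ 2 ^ k) :
    In (fun n => Q (n + f)) k j ≤ 2 * ∑ x ∈ range (2 ^ (k + 1)), ne' (Q x) (Q (x + 2 ^ j)) := by
  set w : ℕ → ℝ := fun x => ne' (Q x) (Q (x + 2 ^ j)) with hw
  have hw0 : ∀ x, 0 ≤ w x := fun x => ne'_nonneg _ _
  have h1 : In (fun n => Q (n + f)) k j ≤ ∑ n ∈ range (2 ^ k), (w (n + f) + w ((n ^^^ 2 ^ j) + f)) := by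
    unfold In
    apply sum_le_sum
    intro n _
    rcases xor_or n j with h | h
    · have e : (n ^^^ 2 ^ j) + f = n + f + 2 ^ j := by rw [h]; ring
      have := hw0 ((n ^^^ 2 ^ j) + f)
      show ne' (Q (n + f)) (Q ((n ^^^ 2 ^ j) + f)) ≤ _
      have e2 : ne' (Q (n + f)) (Q ((n ^^^ 2 ^ j) + f)) = w (n + f) := by simp only [hw]; rw [e]
      rw [e2]
      linarith
    · have e : (n ^^^ 2 ^ j) + f + 2 ^ j = n + f := by omega
      have := hw0 (n + f)
      show ne' (Q (n + f)) (Q ((n ^^^ 2 ^ j) + f)) ≤ _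
      have e2 : ne' (Q (n + f)) (Q ((n ^^^ 2 ^ j) + f)) = w ((n ^^^ 2 ^ j) + f) := by
        simp only [hw]; rw [e, ne'_comm]
      rw [e2]
      linarith
  refine h1.trans ?_
  rw [sum_add_distrib, sum_xor (fun n => w (n + f)) hj, ← two_mul]
  apply mul_le_mul_of_nonneg_left _ (by norm_num)
  have h2 : ∑ n ∈ range (2 ^ k), w (n + f) ≤ ∑ x ∈ range (2 ^ k + f), w x := by
    rw [add_comm (2 ^ k) f, sum_range_add]
    have h3 : 0 ≤ ∑ x ∈ range f, w x := sum_nonneg fun _ _ => hw0 _
    have h4 : ∑ n ∈ range (2 ^ k), w (n + f) = ∑ x ∈ range (2 ^ k), w (f + x) := by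
      apply sum_congr rfl
      intro n _
      rw [add_comm]
    linarith
  refine h2.trans (sum_le_sum_of_subset_of_nonneg (range_subset_range.2 ?_) fun _ _ _ => hw0 _)
  rw [pow_succ]
  omega

/-- a window in which the influences of the translates are small -/
theorem window_shift (Q : ℕ → Prop) {k J₀ b W : ℕ} (hW : 0 < W) (h : J₀ + W * (2 * b) ≤ k) :
    ∃ i < W, ∀ f ≤ 2 ^ k, ∑ j ∈ Ico (J₀ + i * (2 * b)) (J₀ + i * (2 * b) + b), In (fun n => Q (n + f)) k j ≤
      2 * b * (TI Q (k + 1) / W + 2 ^ (k + 1 - b)) := by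
  obtain ⟨i, hi, h1⟩ := exists_window Q (k := k + 1) (J₀ := J₀) (b := 2 * b) hW (by omega)
  refine ⟨i, hi, fun f hf => ?_⟩
  set A := J₀ + i * (2 * b) with hA
  have hAk : A + 2 * b ≤ k := by
    have : i * (2 * b) + 2 * b ≤ W * (2 * b) := by
      calc i * (2 * b) + 2 * b = (i + 1) * (2 * b) := by ring
        _ ≤ W * (2 * b) := Nat.mul_le_mul_right _ hi
    omega
  have h2 : ∀ j ∈ Ico A (A + b), In (fun n => Q (n + f)) k j ≤ 2 * (TI Q (k + 1) / W + 2 ^ (k + 1 - b)) := by
    intro j hj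
    rw [mem_Ico] at hj
    refine (In_shift Q (by omega) hf).trans ?_
    apply mul_le_mul_of_nonneg_left _ (by norm_num)
    refine (shift_le Q (t := b) (by omega)).trans ?_
    have h3 : ∑ i ∈ range b, In Q (k + 1) (j + i) ≤ TI Q (k + 1) / W := by
      refine le_trans ?_ h1
      have h4 : ∑ i ∈ range b, In Q (k + 1) (j + i) = ∑ i ∈ Ico j (j + b), In Q (k + 1) i := by
        rw [sum_Ico_eq_sum_range, Nat.add_sub_cancel_left]
      rw [h4]
      apply sum_le_sum_of_subset_of_nonneg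
      · apply Ico_subset_Ico <;> omega
      · intro _ _ _
        exact In_nonneg _ _ _
    linarith
  refine (sum_le_sum h2).trans ?_
  rw [sum_const, Nat.card_Ico, Nat.add_sub_cancel_left, nsmul_eq_mul]
  apply le_of_eq
  ring

end Pool.Agent.H620.Rel
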